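import Pool.Agent.Helper20.LT.Co

/-!
# The criterion and the rank one case
-/

set_option autoImplicit false

namespace Pool.Agent.Helper20.LT

open IsLocalRing Pool.Agent.Helper11.SY Module

variable {R : Type} [CommRing R] [Algebra ℂ R] [IsDomain R] [IsLocalRing R] [IsNoetherianRing R]
  [IsAdicComplete (maximalIdeal R) R]

theorem exists_nonzero {n : ℕ} (hn : 1 ≤ n) (hdim : ringKrullDim R = ((2 * n : ℕ) : WithBot ℕ∞)) :
    ∃ f ∈ maximalIdeal R, f ≠ 0 := by
  by_contra hcon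
  push Not at hcon
  have h1 : maximalIdeal R = ⊥ := by
    rw [eq_bot_iff]
    intro f hf
    exact hcon f hf
  have h2 : IsField R := isField_iff_maximalIdeal_eq.2 h1
  rw [ringKrullDim_eq_zero_of_isField h2] at hdim
  have h3 : ((0 : ℕ) : WithBot ℕ∞) = ((2 * n : ℕ) : WithBot ℕ∞) := hdim
  have h4 : (0 : ℕ) = 2 * n := by exact_mod_cast h3
  omega

theorem criterion (hres : ∀ f : R, ∃ c : ℂ, f - algebraMap ℂ R c ∈ maximalIdeal R) {n : ℕ}
    (hn : 1 ≤ n) {S : Symp R n} {w : CVal R} {A : ℝ} (hd : LogDisc S w A)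
    (hm : ∃ f ∈ maximalIdeal R, f ≠ 0) {E : Derivation ℂ R R} (hE : ∀ f, w.v f ≤ w.v (E f))
    (hEm : ∀ f ∈ maximalIdeal R, E f ∈ maximalIdeal R) (hL : Liouville S E) {c : ℂ}
    (hc : SingleEig w E c) :
    c = n / A ∧ OrderGe S w (A / n) ∧ ∃ G : ℝ → Submodule ℂ R, Conical S w (A / n) G := by
  obtain ⟨δ, hδA, hδ⟩ := const_eq hres hd hm hE hEm hL hc
  have hord := order hres hn hE hEm hL hc hδ
  have hn0 : (0 : ℝ) < n := by exact_mod_cast hn
  have hAδ : A ≤ δ := by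
    obtain ⟨f, g, hfg, hlt⟩ := order_le hn hd hm
    have h1 := hlt.trans (hord f g)
    obtain ⟨y, hy⟩ := real_val w hfg
    rw [hy, ← WithTop.coe_add, ← WithTop.coe_add, WithTop.coe_le_coe] at h1
    have h2 : A / n ≤ δ / n := by linarith
    exact (div_le_div_iff_of_pos_right hn0).1 h2
  have hδ' : δ = A := le_antisymm hδA hAδ
  subst hδ'
  have hA0 : (δ : ℂ) ≠ 0 := by
    have := hd.pos
    exact_mod_cast this.ne'
  have hnC : (n : ℂ) ≠ 0 := by exact_mod_cast hn0.ne'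
  refine ⟨?_, hord, _, conical hres hE hEm hL hc (a := δ / n) ?_⟩
  · rw [eq_div_iff hA0, hδ]
  · push_cast
    rw [← mul_div_assoc, hδ, div_self hnC]

end Pool.Agent.Helper20.LT
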