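import Pool.Agent.Helper20.LT.Df

/-!
# Chevalley's theorem for the ideals of a valuation
-/

set_option autoImplicit false

namespace Pool.Agent.Helper20.LT

open IsLocalRing Pool.Agent.Helper11.SY

noncomputable section

variable {R : Type} [CommRing R] [Algebra ℂ R] [IsLocalRing R]

theorem mem_idl {w : CVal R} {r : ℝ} {x : R} : x ∈ w.idl r ↔ (r : WithTop ℝ) ≤ w.v x := Iff.rfl

theorem idl_anti (w : CVal R) {r s : ℝ} (h : r ≤ s) : w.idl s ≤ w.idl r := by
  intro x hx
  rw [mem_idl] at hx ⊢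
  exact le_trans (WithTop.coe_le_coe.2 h) hx

theorem chevalley [IsNoetherianRing R] [IsAdicComplete (maximalIdeal R) R]
    (hres : ∀ f : R, ∃ c : ℂ, f - algebraMap ℂ R c ∈ maximalIdeal R) (w : CVal R) (k : ℕ) :
    ∃ ρ : ℝ, ∀ x : R, (ρ : WithTop ℝ) ≤ w.v x → x ∈ maximalIdeal R ^ k := by
  classical
  set I := maximalIdeal R with hI
  have hst : ∀ l : ℕ, ∃ c : ℕ, ∀ j : ℕ, c ≤ j →
      (w.idl (c : ℝ)).map (Ideal.Quotient.mk (I ^ l)) = (w.idl (j : ℝ)).map (Ideal.Quotient.mk (I ^ l)) := by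
    intro l
    have : FiniteDimensional ℂ (R ⧸ I ^ l) := fin_pow hres l
    have : IsArtinianRing (R ⧸ I ^ l) := IsArtinianRing.of_finite ℂ (R ⧸ I ^ l)
    let J : ℕ →o (Submodule (R ⧸ I ^ l) (R ⧸ I ^ l))ᵒᵈ :=
      ⟨fun j => OrderDual.toDual ((w.idl (j : ℝ)).map (Ideal.Quotient.mk (I ^ l))), by
        intro a b hab
        refine OrderDual.toDual_le_toDual.mpr (Ideal.map_mono (idl_anti w ?_))
        exact_mod_cast hab⟩
    obtain ⟨c, hc⟩ := IsArtinian.monotone_stabilizes J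
    exact ⟨c, fun j hj => OrderDual.toDual.injective (hc j hj)⟩
  choose c hc using hst
  by_contra hcon
  push Not at hcon
  obtain ⟨y0, hy0, hy0k⟩ := hcon (c k : ℝ)
  -- one step of the construction
  have hstep : ∀ (l : ℕ) (y : R), (∃ a ∈ w.idl (c l : ℝ), y - a ∈ I ^ l) →
      ∃ y' : R, (∃ a ∈ w.idl (c (l + 1) : ℝ), y' - a ∈ I ^ (l + 1)) ∧ y' - y ∈ I ^ l := by
    rintro l y ⟨a, ha, hya⟩
    have h1 : Ideal.Quotient.mk (I ^ l) a ∈ (w.idl (c l : ℝ)).map (Ideal.Quotient.mk (I ^ l)) :=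
      Ideal.mem_map_of_mem _ ha
    rw [hc l (max (c l) (c (l + 1))) (le_max_left _ _),
      Ideal.mem_map_iff_of_surjective _ Ideal.Quotient.mk_surjective] at h1
    obtain ⟨b, hb, hab⟩ := h1
    refine ⟨b, ⟨b, ?_, ?_⟩, ?_⟩
    · refine idl_anti w ?_ hb
      exact_mod_cast le_max_right _ _
    · rw [sub_self]
      exact Ideal.zero_mem _
    · rw [Ideal.Quotient.eq] at hab
      have h2 : b - y = (b - a) - (y - a) := by ring
      rw [h2]
      exact Ideal.sub_mem _ hab hya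
  let seq : ∀ i : ℕ, {y : R // ∃ a ∈ w.idl (c (k + i) : ℝ), y - a ∈ I ^ (k + i)} := fun i =>
    Nat.rec ⟨y0, y0, hy0, by rw [sub_self]; exact Ideal.zero_mem _⟩
      (fun j y => ⟨(hstep (k + j) y.1 y.2).choose, (hstep (k + j) y.1 y.2).choose_spec.1⟩) i
  have hseq : ∀ i : ℕ, (seq (i + 1)).1 - (seq i).1 ∈ I ^ (k + i) := fun i =>
    (hstep (k + i) (seq i).1 (seq i).2).choose_spec.2
  have hseq' : ∀ i j : ℕ, i ≤ j → (seq j).1 - (seq i).1 ∈ I ^ (k + i) := by
    intro i j hij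
    induction j, hij using Nat.le_induction with
    | base =>
      rw [sub_self]
      exact Ideal.zero_mem _
    | succ j hij ih =>
      have h1 : (seq (j + 1)).1 - (seq i).1 = ((seq (j + 1)).1 - (seq j).1) + ((seq j).1 - (seq i).1) := by
        ring
      rw [h1]
      exact Ideal.add_mem _ (Ideal.pow_le_pow_right (by omega) (hseq j)) ih
  obtain ⟨L, hL⟩ := IsPrecomplete.prec (I := I) (M := R) inferInstance (f := fun i => (seq i).1) (by
    intro m n hmn
    rw [SModEq.sub_mem, smul_eq_mul, Ideal.mul_top]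
    have h1 := hseq' m n hmn
    have h2 : (seq m).1 - (seq n).1 = -((seq n).1 - (seq m).1) := by ring
    rw [h2]
    exact (I ^ _).neg_mem (Ideal.pow_le_pow_right (by omega) h1))
  have hL' : ∀ i : ℕ, L - (seq i).1 ∈ I ^ (k + i) := by
    intro i
    have h1 := hL (k + i)
    rw [SModEq.sub_mem, smul_eq_mul, Ideal.mul_top] at h1
    have h2 := hseq' i (k + i) (by omega)
    have h3 : L - (seq i).1 = -((seq (k + i)).1 - L) + ((seq (k + i)).1 - (seq i).1) := by ring
    rw [h3]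
    exact Ideal.add_mem _ ((I ^ _).neg_mem h1) h2
  have hLw : ∀ j : ℕ, ((j : ℝ) : WithTop ℝ) ≤ w.v L := by
    intro j
    obtain ⟨N, hN⟩ := pow_le_idl w (j : ℝ)
    obtain ⟨a, ha, hsa⟩ := (seq N).2
    -- replace `a` by an element of valuation at least `j`
    have h1 : Ideal.Quotient.mk (I ^ (k + N)) a ∈
        (w.idl (c (k + N) : ℝ)).map (Ideal.Quotient.mk (I ^ (k + N))) :=
      Ideal.mem_map_of_mem _ ha
    rw [hc (k + N) (max (c (k + N)) j) (le_max_left _ _),
      Ideal.mem_map_iff_of_surjective _ Ideal.Quotient.mk_surjective] at h1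
    obtain ⟨b, hb, hab⟩ := h1
    rw [Ideal.Quotient.eq] at hab
    have hb' : b ∈ w.idl (j : ℝ) := by
      refine idl_anti w ?_ hb
      exact_mod_cast le_max_right _ _
    have h2 : L - b ∈ I ^ (k + N) := by
      have h3 : L - b = (L - (seq N).1) + ((seq N).1 - a) - (b - a) := by ring
      rw [h3]
      exact Ideal.sub_mem _ (Ideal.add_mem _ (hL' N) hsa) hab
    have h4 : L - b ∈ w.idl (j : ℝ) := hN (Ideal.pow_le_pow_right (by omega) h2)
    have h5 := Ideal.add_mem _ h4 hb'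
    rw [sub_add_cancel] at h5
    exact h5
  have hL0 : L = 0 := by
    refine w.top L ?_
    by_contra h1
    obtain ⟨y, hy⟩ := WithTop.ne_top_iff_exists.1 h1
    obtain ⟨j, hj⟩ := exists_nat_gt y
    have h2 := hLw j
    rw [← hy, WithTop.coe_le_coe] at h2
    linarith
  have h6 := hL' 0
  rw [hL0, zero_sub] at h6
  have h7 := (I ^ (k + 0)).neg_mem h6
  rw [neg_neg] at h7
  exact hy0k h7

end

end Pool.Agent.Helper20.LT
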