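import Pool.Agent.Helper20.LT.Fin

/-!
# The grading of the germ
-/

set_option autoImplicit false

namespace Pool.Agent.Helper20.LT

open IsLocalRing Pool.Agent.Helper11.SY Module

noncomputable section

variable {R : Type} [CommRing R] [Algebra ℂ R] [IsLocalRing R]

/-- The germ is conical with respect to the valuation: `R` contains a graded ring `⨁ G r`, where
`G r` is a complement of `{w > r}` in `{w ≥ r}`, and the Poisson bracket has degree `- a`.  So
`⨁ G r` is isomorphic to `gr_w R`, and `R` is its completion. -/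
structure Conical {n : ℕ} (S : Symp R n) (w : CVal R) (a : ℝ) (G : ℝ → Submodule ℂ R) : Prop where
  one : (1 : R) ∈ G 0
  mul : ∀ (r s : ℝ) (x y : R), x ∈ G r → y ∈ G s → x * y ∈ G (r + s)
  br : ∀ (r s : ℝ) (x y : R), x ∈ G r → y ∈ G s → S.br x y ∈ G (r + s - a)
  val : ∀ (r : ℝ) (x : R), x ∈ G r → x ≠ 0 → w.v x = (r : WithTop ℝ)
  lead : ∀ (f : R) (r : ℝ), w.v f = (r : WithTop ℝ) → ∃ g ∈ G r, w.v f < w.v (f - g)

/-- `E - μ` is bijective modulo the powers of the maximal ideal on a stable subspace without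
elements of valuation `μ / c`. -/
theorem mod_bij [IsDomain R] [IsNoetherianRing R] [IsAdicComplete (maximalIdeal R) R]
    (hres : ∀ f : R, ∃ c : ℂ, f - algebraMap ℂ R c ∈ maximalIdeal R)
    {w : CVal R} {E : Derivation ℂ R R} (hE : ∀ f, w.v f ≤ w.v (E f))
    (hEm : ∀ f ∈ maximalIdeal R, E f ∈ maximalIdeal R) {c : ℂ}
    (hc : SingleEig w E c) (μ : ℂ) (M : Submodule ℂ R) (hM : ∀ y ∈ M, TE E μ y ∈ M)
    (hne : ∀ y ∈ M, ∀ r : ℝ, w.v y = (r : WithTop ℝ) → μ ≠ c * r) (k : ℕ) :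
    (∀ y ∈ M, ∃ z ∈ M, TE E μ z - y ∈ maximalIdeal R ^ k) ∧
      (∀ z ∈ M, TE E μ z ∈ maximalIdeal R ^ k → z ∈ maximalIdeal R ^ k) := by
  obtain ⟨ρ, hρ⟩ := chevalley hres w k
  obtain ⟨K, hK⟩ := pow_le_idl w ρ
  let q : M →ₗ[ℂ] (R ⧸ w.idl ρ) := (Ideal.Quotient.mkₐ ℂ (w.idl ρ)).toLinearMap ∘ₗ M.subtype
  have hq : ∀ y : M, y ∈ LinearMap.ker q ↔ (y : R) ∈ w.idl ρ := by
    intro y
    rw [LinearMap.mem_ker]
    exact Ideal.Quotient.eq_zero_iff_mem
  have : FiniteDimensional ℂ (R ⧸ maximalIdeal R ^ K) := fin_pow hres K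
  have : FiniteDimensional ℂ (R ⧸ w.idl ρ) :=
    Module.Finite.of_surjective (Ideal.Quotient.factorₐ ℂ hK).toLinearMap
      (Ideal.Quotient.factor_surjective hK)
  have h3 : FiniteDimensional ℂ (M ⧸ LinearMap.ker q) :=
    Module.Finite.equiv (LinearMap.quotKerEquivRange q).symm
  let TM : M →ₗ[ℂ] M := LinearMap.restrict (TE E μ) hM
  let T : (M ⧸ LinearMap.ker q) →ₗ[ℂ] (M ⧸ LinearMap.ker q) :=
    (LinearMap.ker q).mapQ (LinearMap.ker q) TM (by
      intro y hy
      rw [Submodule.mem_comap, hq]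
      exact le_trans ((hq y).1 hy) (val_TE hE μ (y : R)))
  have hinj : Function.Injective T := by
    rw [← LinearMap.ker_eq_bot, LinearMap.ker_eq_bot']
    intro y hy
    obtain ⟨y, rfl⟩ := Submodule.Quotient.mk_surjective _ y
    have h4 : T (Submodule.Quotient.mk y) = Submodule.Quotient.mk (TM y) := rfl
    rw [h4, Submodule.Quotient.mk_eq_zero, hq] at hy
    rw [Submodule.Quotient.mk_eq_zero, hq]
    by_contra h5
    have hy' : (ρ : WithTop ℝ) ≤ w.v (TE E μ (y : R)) := hy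
    rw [mem_idl, not_le] at h5
    have hy0 : (y : R) ≠ 0 := by
      intro h0
      rw [h0, w.v.map_zero] at h5
      exact absurd h5 (not_lt.2 le_top)
    obtain ⟨r, hr⟩ := real_val w hy0
    exact hne (y : R) y.2 r hr (hc (y : R) r μ hr (lt_of_lt_of_le h5 hy'))
  have hsurj : Function.Surjective T := LinearMap.surjective_of_injective hinj
  let q' : M →ₗ[ℂ] (R ⧸ maximalIdeal R ^ k) :=
    (Ideal.Quotient.mkₐ ℂ (maximalIdeal R ^ k)).toLinearMap ∘ₗ M.subtype
  have hq' : ∀ y : M, y ∈ LinearMap.ker q' ↔ (y : R) ∈ maximalIdeal R ^ k := by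
    intro y
    rw [LinearMap.mem_ker]
    exact Ideal.Quotient.eq_zero_iff_mem
  have : FiniteDimensional ℂ (R ⧸ maximalIdeal R ^ k) := fin_pow hres k
  have h7 : FiniteDimensional ℂ (M ⧸ LinearMap.ker q') :=
    Module.Finite.equiv (LinearMap.quotKerEquivRange q').symm
  let T' : (M ⧸ LinearMap.ker q') →ₗ[ℂ] (M ⧸ LinearMap.ker q') :=
    (LinearMap.ker q').mapQ (LinearMap.ker q') TM (by
      intro y hy
      rw [Submodule.mem_comap, hq']
      exact TE_mem (pow_stable E hEm k) μ ((hq' y).1 hy))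
  have hs1 : ∀ y ∈ M, ∃ z ∈ M, TE E μ z - y ∈ maximalIdeal R ^ k := by
    intro y hy
    obtain ⟨z, hz⟩ := hsurj (Submodule.Quotient.mk ⟨y, hy⟩)
    obtain ⟨z, rfl⟩ := Submodule.Quotient.mk_surjective _ z
    have h8 : T (Submodule.Quotient.mk z) = Submodule.Quotient.mk (TM z) := rfl
    rw [h8, Submodule.Quotient.eq, hq] at hz
    exact ⟨z, z.2, hρ _ hz⟩
  refine ⟨hs1, ?_⟩
  have hsurj' : Function.Surjective T' := by
    intro y
    obtain ⟨y, rfl⟩ := Submodule.Quotient.mk_surjective _ y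
    obtain ⟨z, hz, hzy⟩ := hs1 y y.2
    refine ⟨Submodule.Quotient.mk ⟨z, hz⟩, ?_⟩
    have h9 : T' (Submodule.Quotient.mk ⟨z, hz⟩) = Submodule.Quotient.mk (TM ⟨z, hz⟩) := rfl
    rw [h9, Submodule.Quotient.eq, hq']
    exact hzy
  have hinj' : Function.Injective T' := LinearMap.injective_iff_surjective.2 hsurj'
  intro z hz h
  have h10 : T' (Submodule.Quotient.mk ⟨z, hz⟩) = 0 := by
    have h9 : T' (Submodule.Quotient.mk ⟨z, hz⟩) = Submodule.Quotient.mk (TM ⟨z, hz⟩) := rfl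
    rw [h9, Submodule.Quotient.mk_eq_zero, hq']
    exact h
  have h11 : (Submodule.Quotient.mk ⟨z, hz⟩ : M ⧸ LinearMap.ker q') = 0 :=
    hinj' (h10.trans (map_zero T').symm)
  rw [Submodule.Quotient.mk_eq_zero, hq'] at h11
  exact h11

/-- `E - μ` is surjective on such a subspace if it is closed. -/
theorem surj_closed [IsDomain R] [IsNoetherianRing R] [IsAdicComplete (maximalIdeal R) R]
    (hres : ∀ f : R, ∃ c : ℂ, f - algebraMap ℂ R c ∈ maximalIdeal R)
    {w : CVal R} {E : Derivation ℂ R R} (hE : ∀ f, w.v f ≤ w.v (E f))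
    (hEm : ∀ f ∈ maximalIdeal R, E f ∈ maximalIdeal R) {c : ℂ}
    (hc : SingleEig w E c) (μ : ℂ) (M : Submodule ℂ R) (hM : ∀ y ∈ M, TE E μ y ∈ M)
    (hne : ∀ y ∈ M, ∀ r : ℝ, w.v y = (r : WithTop ℝ) → μ ≠ c * r)
    (hcl : ∀ z : R, (∀ k, ∃ y ∈ M, z - y ∈ maximalIdeal R ^ k) → z ∈ M) :
    ∀ y ∈ M, ∃ z ∈ M, TE E μ z = y := by
  intro y hy
  have h1 := fun k => mod_bij hres hE hEm hc μ M hM hne k
  choose z hzM hz using fun k => (h1 k).1 y hy
  have hcomp : ∀ m n : ℕ, m ≤ n → z m - z n ∈ maximalIdeal R ^ m := by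
    intro m n hmn
    refine (h1 m).2 _ (M.sub_mem (hzM m) (hzM n)) ?_
    have h2 : TE E μ (z m - z n) = (TE E μ (z m) - y) - (TE E μ (z n) - y) := by
      rw [map_sub]
      ring
    rw [h2]
    exact Ideal.sub_mem _ (hz m) (Ideal.pow_le_pow_right hmn (hz n))
  obtain ⟨L, hL⟩ := IsPrecomplete.prec (I := maximalIdeal R) (M := R) inferInstance (f := z) (by
    intro m n hmn
    rw [SModEq.sub_mem, smul_eq_mul, Ideal.mul_top]
    exact hcomp m n hmn)
  have hL' : ∀ k, L - z k ∈ maximalIdeal R ^ k := by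
    intro k
    have h2 := hL k
    rw [SModEq.sub_mem, smul_eq_mul, Ideal.mul_top] at h2
    have h3 : L - z k = -(z k - L) := by ring
    rw [h3]
    exact (maximalIdeal R ^ k).neg_mem h2
  refine ⟨L, hcl L fun k => ⟨z k, hzM k, hL' k⟩, ?_⟩
  refine adic_ext (maximalIdeal R) fun k => ?_
  rw [Ideal.Quotient.eq]
  have h4 : TE E μ L - y = TE E μ (L - z k) + (TE E μ (z k) - y) := by
    rw [map_sub]
    ring
  rw [h4]
  exact Ideal.add_mem _ (TE_mem (pow_stable E hEm k) μ (hL' k)) (hz k)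

/-- the elements of valuation greater than `r` -/
def gt' (w : CVal R) (r : ℝ) : Submodule ℂ R where
  carrier := {x | (r : WithTop ℝ) < w.v x}
  add_mem' ha hb := w.v.map_lt_add ha hb
  zero_mem' := by
    show (r : WithTop ℝ) < w.v (0 : R)
    rw [w.v.map_zero]
    exact WithTop.coe_lt_top r
  smul_mem' c x hx := lt_of_lt_of_le hx (val_smul w c x)

theorem mem_gt' {w : CVal R} {r : ℝ} {x : R} : x ∈ gt' w r ↔ (r : WithTop ℝ) < w.v x := Iff.rfl

/-- `E - c r` is nilpotent on the part of degree `r`. -/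
theorem nil_gr [IsNoetherianRing R]
    (hres : ∀ f : R, ∃ c : ℂ, f - algebraMap ℂ R c ∈ maximalIdeal R)
    {w : CVal R} {E : Derivation ℂ R R} (hE : ∀ f, w.v f ≤ w.v (E f)) {c : ℂ}
    (hc : SingleEig w E c) (r : ℝ) (x : Gr w r) :
    ∃ N : ℕ, ((grE w E hE r - (c * r) • (1 : Module.End ℂ (Gr w r))) ^ N) x = 0 := by
  have : FiniteDimensional ℂ (Gr w r) := fin_gr hres w r
  have hT : ∀ (μ : ℂ) (N : ℕ) (x : ge w r), ((grE w E hE r - μ • (1 : Module.End ℂ (Gr w r))) ^ N)
      (Submodule.Quotient.mk x) = 0 → (r : WithTop ℝ) < w.v ((TE E μ ^ N) (x : R)) := by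
    intro μ N
    induction N with
    | zero =>
      intro x hx
      rw [pow_zero, Module.End.one_apply, Submodule.Quotient.mk_eq_zero] at hx
      rw [pow_zero, Module.End.one_apply]
      exact hx
    | succ N ih =>
      intro x hx
      rw [pow_succ, Module.End.mul_apply] at hx ⊢
      have h1 : (grE w E hE r - μ • (1 : Module.End ℂ (Gr w r))) (Submodule.Quotient.mk x) =
          Submodule.Quotient.mk (geE w E hE r x - μ • x) := rfl
      rw [h1] at hx
      exact ih _ hx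
  have hx : x ∈ ⨆ μ : ℂ, Module.End.maxGenEigenspace (grE w E hE r) μ := by
    rw [Module.End.iSup_maxGenEigenspace_eq_top]
    trivial
  induction hx using Submodule.iSup_induction' with
  | mem μ x hx =>
    by_cases hx0 : x = 0
    · exact ⟨0, by rw [pow_zero, Module.End.one_apply, hx0]⟩
    · obtain ⟨y, rfl⟩ := Submodule.Quotient.mk_surjective _ x
      have hy : w.v (y : R) = (r : WithTop ℝ) := by
        refine le_antisymm (not_lt.1 fun h => hx0 ?_) y.2
        rw [Submodule.Quotient.mk_eq_zero]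
        exact h
      rw [mem_gen] at hx
      obtain ⟨N, hN⟩ := hx
      have h2 := LT.lead hE hc N hy (hT μ N y hN)
      rw [← h2]
      exact ⟨N, hN⟩
  | zero => exact ⟨0, by rw [pow_zero, Module.End.one_apply]⟩
  | add x y _ _ h1 h2 =>
    obtain ⟨a, ha⟩ := h1
    obtain ⟨b, hb⟩ := h2
    refine ⟨a + b, ?_⟩
    rw [map_add, pow_add, Module.End.mul_apply, Module.End.mul_apply, hb, map_zero, add_zero,
      ← Module.End.mul_apply, (Commute.pow_pow (Commute.refl _) a b).eq, Module.End.mul_apply, ha,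
      map_zero]

/-- The generalized eigenspaces of `E` form a grading. -/
theorem conical [IsDomain R] [IsNoetherianRing R] [IsAdicComplete (maximalIdeal R) R]
    (hres : ∀ f : R, ∃ c : ℂ, f - algebraMap ℂ R c ∈ maximalIdeal R) {n : ℕ} {S : Symp R n}
    {w : CVal R} {E : Derivation ℂ R R} (hE : ∀ f, w.v f ≤ w.v (E f))
    (hEm : ∀ f ∈ maximalIdeal R, E f ∈ maximalIdeal R) (hL : Liouville S E) {c : ℂ}
    (hc : SingleEig w E c) {a : ℝ} (ha : c * a = 1) :
    Conical S w a (fun r => Module.End.maxGenEigenspace (E : R →ₗ[ℂ] R) (c * r)) := by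
  have hc0 : c ≠ 0 := by
    intro h0
    rw [h0, zero_mul] at ha
    exact zero_ne_one ha
  have hval : ∀ (r : ℝ) (x : R), x ∈ Module.End.maxGenEigenspace (E : R →ₗ[ℂ] R) (c * r) →
      x ≠ 0 → w.v x = (r : WithTop ℝ) := by
    intro r x hx hx0
    rw [mem_gen] at hx
    obtain ⟨N, hN⟩ := hx
    obtain ⟨s, hs⟩ := real_val w hx0
    have h1 : (s : WithTop ℝ) < w.v ((TE E (c * r) ^ N) x) := by
      have h2 : (TE E (c * r) ^ N) x = 0 := hN
      rw [h2, w.v.map_zero]
      exact WithTop.coe_lt_top s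
    have h3 := LT.lead hE hc N hs h1
    have h4 := mul_left_cancel₀ hc0 h3
    have h5 : r = s := by exact_mod_cast h4
    rw [hs, h5]
  refine ⟨?_, ?_, ?_, hval, ?_⟩
  · rw [mem_gen]
    refine ⟨1, ?_⟩
    rw [pow_one, LinearMap.sub_apply, LinearMap.smul_apply, Module.End.one_apply]
    have h1 : (E : R →ₗ[ℂ] R) 1 = 0 := Derivation.map_one_eq_zero E
    rw [h1]
    simp
  · intro r s x y hx hy
    have h1 := gen_mul (LinearMap.mul ℂ R) (E : R →ₗ[ℂ] R) (E : R →ₗ[ℂ] R) (E : R →ₗ[ℂ] R) (by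
      intro x y
      have h2 := E.leibniz x y
      simp only [smul_eq_mul] at h2
      simp only [LinearMap.mul_apply', Derivation.coeFn_coe, h2]
      ring) hx hy
    rw [LinearMap.mul_apply'] at h1
    have h3 : c * ((r + s : ℝ) : ℂ) = c * r + c * s := by
      push_cast
      ring
    rw [h3]
    exact h1
  · intro r s x y hx hy
    let β : R →ₗ[ℂ] R →ₗ[ℂ] R := LinearMap.mk₂ ℂ (fun x y => S.br x y)
      (fun x x' y => by rw [map_add, Derivation.add_apply])
      (fun c x y => by rw [map_smul, Derivation.smul_apply])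
      (fun x y y' => map_add _ _ _) (fun c x y => Derivation.map_smul _ _ _)
    have h1 := gen_mul β (E : R →ₗ[ℂ] R) (E : R →ₗ[ℂ] R)
      ((E : R →ₗ[ℂ] R) + (1 : Module.End ℂ R)) (by
      intro x y
      show E (S.br x y) + S.br x y = S.br (E x) y + S.br x (E y)
      rw [hL]
      ring) hx hy
    rw [mem_gen] at h1 ⊢
    obtain ⟨N, hN⟩ := h1
    refine ⟨N, ?_⟩
    have h3 : c * ((r + s - a : ℝ) : ℂ) = c * r + c * s - 1 := by
      push_cast
      rw [mul_sub, ha]
      ring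
    rw [h3]
    have h4 : (E : R →ₗ[ℂ] R) - (c * r + c * s - 1) • (1 : Module.End ℂ R) =
        (E : R →ₗ[ℂ] R) + (1 : Module.End ℂ R) - (c * r + c * s) • (1 : Module.End ℂ R) := by
      module
    rw [h4]
    exact hN
  · intro f r hf
    obtain ⟨N, hN⟩ := nil_gr hres hE hc r (Submodule.Quotient.mk ⟨f, hf.ge⟩)
    have hTE : ∀ (N : ℕ) (x : ge w r), ((grE w E hE r - (c * r) • (1 : Module.End ℂ (Gr w r))) ^ N)
        (Submodule.Quotient.mk x) = 0 → (r : WithTop ℝ) < w.v ((TE E (c * r) ^ N) (x : R)) := by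
      intro N
      induction N with
      | zero =>
        intro x hx
        rw [pow_zero, Module.End.one_apply, Submodule.Quotient.mk_eq_zero] at hx
        rw [pow_zero, Module.End.one_apply]
        exact hx
      | succ N ih =>
        intro x hx
        rw [pow_succ, Module.End.mul_apply] at hx ⊢
        have h1 : (grE w E hE r - (c * r) • (1 : Module.End ℂ (Gr w r)))
            (Submodule.Quotient.mk x) =
            Submodule.Quotient.mk (geE w E hE r x - (c * (r : ℂ)) • x) := rfl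
        rw [h1] at hx
        exact ih _ hx
    have h1 : (TE E (c * r) ^ N) f ∈ gt' w r := hTE N ⟨f, hf.ge⟩ hN
    have hM : ∀ y ∈ gt' w r, TE E (c * r) y ∈ gt' w r := fun y hy =>
      lt_of_lt_of_le hy (val_TE hE _ y)
    have hsurj := surj_closed hres hE hEm hc (c * r) (gt' w r) hM (by
      intro y hy s hs h0
      have h4 := mul_left_cancel₀ hc0 h0
      have h5 : r = s := by exact_mod_cast h4
      rw [mem_gt', hs, h5] at hy
      exact lt_irrefl _ hy) (by
      intro z hz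
      obtain ⟨k, hk⟩ := pow_le_idl w (r + 1)
      obtain ⟨y, hy, hzy⟩ := hz k
      have h2 : z - y ∈ gt' w r := by
        rw [mem_gt']
        refine lt_of_lt_of_le (b := ((r + 1 : ℝ) : WithTop ℝ)) ?_ (hk hzy)
        rw [WithTop.coe_lt_coe]
        linarith
      have h3 := (gt' w r).add_mem h2 hy
      rwa [sub_add_cancel] at h3)
    have hsurjN : ∀ N : ℕ, ∀ y ∈ gt' w r, ∃ z ∈ gt' w r, (TE E (c * r) ^ N) z = y := by
      intro N
      induction N with
      | zero => exact fun y hy => ⟨y, hy, by rw [pow_zero, Module.End.one_apply]⟩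
      | succ N ih =>
        intro y hy
        obtain ⟨z, hz, hzy⟩ := ih y hy
        obtain ⟨u, hu, huz⟩ := hsurj z hz
        exact ⟨u, hu, by rw [pow_succ, Module.End.mul_apply, huz, hzy]⟩
    obtain ⟨z, hz, hzf⟩ := hsurjN N _ h1
    refine ⟨f - z, ?_, ?_⟩
    · rw [mem_gen]
      refine ⟨N, ?_⟩
      show (TE E (c * r) ^ N) (f - z) = 0
      rw [map_sub, hzf, sub_self]
    · rw [sub_sub_cancel, hf]
      exact hz

end

end Pool.Agent.Helper20.LT
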