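import Pool.Agent.Helper20.LT.Ge

/-!
# Decomposition into generalized eigenvectors, leading terms
-/

set_option autoImplicit false

namespace Pool.Agent.Helper20.LT

open IsLocalRing Pool.Agent.Helper11.SY Module

noncomputable section

variable {R : Type} [CommRing R] [Algebra ℂ R] [IsLocalRing R]

theorem val_TE {w : CVal R} {E : Derivation ℂ R R} (hE : ∀ f, w.v f ≤ w.v (E f)) (μ : ℂ) (x : R) :
    w.v x ≤ w.v (TE E μ x) := by
  rw [TE_apply, sub_eq_add_neg, ← neg_smul]
  exact w.v.map_le_add (hE x) (val_smul w _ x)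

/-- The eigenvalue of a generalized eigenvector is that of its leading term. -/
theorem lead {w : CVal R} {E : Derivation ℂ R R} (hE : ∀ f, w.v f ≤ w.v (E f)) {c : ℂ}
    (hc : SingleEig w E c) {μ : ℂ} {r : ℝ} (N : ℕ) {x : R} (hx : w.v x = (r : WithTop ℝ))
    (h : (r : WithTop ℝ) < w.v ((TE E μ ^ N) x)) : μ = c * r := by
  induction N generalizing x with
  | zero =>
    rw [pow_zero, Module.End.one_apply, hx] at h
    exact absurd h (lt_irrefl _)
  | succ N ih =>
    by_cases h1 : w.v x < w.v (TE E μ x)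
    · exact hc x r μ hx h1
    · have h2 : w.v (TE E μ x) = (r : WithTop ℝ) := by
        rw [← hx]
        exact le_antisymm (not_lt.1 h1) (val_TE hE μ x)
      refine ih h2 ?_
      rwa [pow_succ, Module.End.mul_apply] at h

/-- A generalized eigenvector modulo an ideal contained in `{v ≥ ρ}`, of valuation less than
`ρ`. -/
theorem GenI.lead {w : CVal R} {E : Derivation ℂ R R} (hE : ∀ f, w.v f ≤ w.v (E f)) {c : ℂ}
    (hc : SingleEig w E c) {I : Ideal R} {ρ : ℝ} (hI : I ≤ w.idl ρ) {μ : ℂ} {x : R}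
    (hx : GenI E I μ x) {r : ℝ} (hr : w.v x = (r : WithTop ℝ)) (hrρ : r < ρ) : μ = c * r := by
  obtain ⟨N, hN⟩ := hx
  refine LT.lead hE hc N hr (lt_of_lt_of_le (WithTop.coe_lt_coe.2 hrρ) ?_)
  exact hI hN

/-- Decomposition of the elements of valuation at least `r` modulo a power of the maximal
ideal. -/
theorem decomp [IsNoetherianRing R]
    (hres : ∀ f : R, ∃ c : ℂ, f - algebraMap ℂ R c ∈ maximalIdeal R) {w : CVal R}
    {E : Derivation ℂ R R} (hE : ∀ f, w.v f ≤ w.v (E f))
    (hEm : ∀ f ∈ maximalIdeal R, E f ∈ maximalIdeal R) (K : ℕ) (r : ℝ) {f : R}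
    (hf : (r : WithTop ℝ) ≤ w.v f) :
    ∃ (m : ℕ) (F : Fin m → R) (μ : Fin m → ℂ), (∀ i, (r : WithTop ℝ) ≤ w.v (F i)) ∧
      (∀ i, GenI E (maximalIdeal R ^ K) (μ i) (F i)) ∧
      f - ∑ i, F i ∈ maximalIdeal R ^ K := by
  set I := maximalIdeal R ^ K with hI
  have hIE : ∀ x ∈ I, E x ∈ I := pow_stable E hEm K
  have : FiniteDimensional ℂ (R ⧸ I) := fin_pow hres K
  let q : ge w r →ₗ[ℂ] (R ⧸ I) := (Ideal.Quotient.mkₐ ℂ I).toLinearMap ∘ₗ (ge w r).subtype
  have hq : ∀ x : ge w r, x ∈ LinearMap.ker q ↔ (x : R) ∈ I := by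
    intro x
    rw [LinearMap.mem_ker]
    exact Ideal.Quotient.eq_zero_iff_mem
  have h3 : FiniteDimensional ℂ (ge w r ⧸ LinearMap.ker q) :=
    Module.Finite.equiv (LinearMap.quotKerEquivRange q).symm
  let T : Module.End ℂ (ge w r ⧸ LinearMap.ker q) :=
    (LinearMap.ker q).mapQ (LinearMap.ker q) (geE w E hE r) (by
      intro x hx
      rw [Submodule.mem_comap, hq]
      exact hIE _ ((hq x).1 hx))
  have hT : ∀ (μ : ℂ) (N : ℕ) (x : ge w r), ((T - μ • (1 : Module.End ℂ (ge w r ⧸ LinearMap.ker q))) ^ N)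
      (Submodule.Quotient.mk x) = 0 → (TE E μ ^ N) (x : R) ∈ I := by
    intro μ N
    induction N with
    | zero =>
      intro x hx
      rw [pow_zero, Module.End.one_apply, Submodule.Quotient.mk_eq_zero, hq] at hx
      rwa [pow_zero, Module.End.one_apply]
    | succ N ih =>
      intro x hx
      rw [pow_succ, Module.End.mul_apply] at hx ⊢
      have h1 : (T - μ • (1 : Module.End ℂ (ge w r ⧸ LinearMap.ker q))) (Submodule.Quotient.mk x) =
          Submodule.Quotient.mk (geE w E hE r x - μ • x) := rfl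
      rw [h1] at hx
      exact ih _ hx
  have key : ∀ y : ge w r ⧸ LinearMap.ker q, ∀ x : ge w r, Submodule.Quotient.mk x = y →
      ∃ (m : ℕ) (F : Fin m → R) (μ : Fin m → ℂ), (∀ i, (r : WithTop ℝ) ≤ w.v (F i)) ∧
        (∀ i, GenI E I (μ i) (F i)) ∧ (x : R) - ∑ i, F i ∈ I := by
    intro y
    have hy : y ∈ ⨆ μ : ℂ, Module.End.maxGenEigenspace T μ := by
      rw [Module.End.iSup_maxGenEigenspace_eq_top]
      trivial
    induction hy using Submodule.iSup_induction' with
    | mem μ y hy =>
      intro x hx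
      rw [mem_gen] at hy
      obtain ⟨N, hN⟩ := hy
      rw [← hx] at hN
      refine ⟨1, fun _ => x, fun _ => μ, fun _ => x.2, fun _ => ⟨N, hT μ N x hN⟩, ?_⟩
      rw [Fin.sum_univ_one, sub_self]
      exact Ideal.zero_mem _
    | zero =>
      intro x hx
      rw [Submodule.Quotient.mk_eq_zero, hq] at hx
      refine ⟨0, Fin.elim0, Fin.elim0, fun i => i.elim0, fun i => i.elim0, ?_⟩
      rw [Fin.sum_univ_zero, sub_zero]
      exact hx
    | add y y' _ _ h1 h2 =>
      intro x hx
      obtain ⟨a, ha⟩ := Submodule.Quotient.mk_surjective _ y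
      obtain ⟨b, hb⟩ := Submodule.Quotient.mk_surjective _ y'
      obtain ⟨m, F, μ, hF, hFg, hFs⟩ := h1 a ha
      obtain ⟨m', F', μ', hF', hFg', hFs'⟩ := h2 b hb
      have hz : (x : R) - (a : R) - (b : R) ∈ I := by
        rw [← ha, ← hb, ← Submodule.Quotient.mk_add, Submodule.Quotient.eq, hq] at hx
        have : (x : R) - (a : R) - (b : R) = ((x - (a + b) : ge w r) : R) := by
          push_cast
          ring
        rw [this]
        exact hx
      refine ⟨m + m', Fin.append F F', Fin.append μ μ', ?_, ?_, ?_⟩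
      · intro i
        refine Fin.addCases (fun i => ?_) (fun i => ?_) i
        · rw [Fin.append_left]
          exact hF i
        · rw [Fin.append_right]
          exact hF' i
      · intro i
        refine Fin.addCases (fun i => ?_) (fun i => ?_) i
        · rw [Fin.append_left, Fin.append_left]
          exact hFg i
        · rw [Fin.append_right, Fin.append_right]
          exact hFg' i
      · rw [Fin.sum_univ_add]
        simp only [Fin.append_left, Fin.append_right]
        have h4 : (x : R) - (∑ i, F i + ∑ i, F' i) =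
            ((x : R) - (a : R) - (b : R)) + ((a : R) - ∑ i, F i) + ((b : R) - ∑ i, F' i) := by
          ring
        rw [h4]
        exact Ideal.add_mem _ (Ideal.add_mem _ hz hFs) hFs'
  exact key _ ⟨f, hf⟩ rfl

end

end Pool.Agent.Helper20.LT
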