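import Pool.Agent.Helper11.SY.Ha

/-!
# Liouville fields and the torus of the graded ring: definitions

`R` is the completed local ring of a point, `w` a real valuation centred there.
-/

set_option autoImplicit false

namespace Pool.Agent.Helper20.LT

open IsLocalRing Pool.Agent.Helper11.SY

noncomputable section

variable {R : Type} [CommRing R] [Algebra ℂ R] [IsLocalRing R]

theorem val_smul (w : CVal R) (c : ℂ) (x : R) : w.v x ≤ w.v (c • x) := by
  rw [Algebra.smul_def, w.v.map_mul]
  exact le_add_of_nonneg_left (w.nonneg _)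

theorem ge_add (w : CVal R) (r : ℝ) {a b : R} (ha : (r : WithTop ℝ) ≤ w.v a)
    (hb : (r : WithTop ℝ) ≤ w.v b) : (r : WithTop ℝ) ≤ w.v (a + b) := w.v.map_le_add ha hb

theorem ge_zero (w : CVal R) (r : ℝ) : (r : WithTop ℝ) ≤ w.v (0 : R) := by
  rw [w.v.map_zero]
  exact le_top

theorem gt_add (w : CVal R) (r : ℝ) {a b : R} (ha : (r : WithTop ℝ) < w.v a)
    (hb : (r : WithTop ℝ) < w.v b) : (r : WithTop ℝ) < w.v (a + b) := w.v.map_lt_add ha hb

theorem gt_zero (w : CVal R) (r : ℝ) : (r : WithTop ℝ) < w.v (0 : R) := by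
  rw [w.v.map_zero]
  exact WithTop.coe_lt_top r

/-- the elements of valuation at least `r` -/
def ge (w : CVal R) (r : ℝ) : Submodule ℂ R where
  carrier := {x | (r : WithTop ℝ) ≤ w.v x}
  add_mem' ha hb := ge_add w r ha hb
  zero_mem' := ge_zero w r
  smul_mem' c x hx := le_trans hx (val_smul w c x)

/-- the elements of valuation greater than `r` -/
def gt (w : CVal R) (r : ℝ) : Submodule ℂ (ge w r) where
  carrier := {x | (r : WithTop ℝ) < w.v (x : R)}
  add_mem' ha hb := gt_add w r ha hb
  zero_mem' := gt_zero w r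
  smul_mem' c x hx := lt_of_lt_of_le hx (val_smul w c (x : R))

/-- the part of degree `r` of the graded ring `gr_w R` -/
abbrev Gr (w : CVal R) (r : ℝ) : Type := ge w r ⧸ gt w r

/-- the endomorphism `T` of the part of degree `r` maps the class of `x` to the class of `x'` -/
def Maps (w : CVal R) (r : ℝ) (T : Module.End ℂ (Gr w r)) (x x' : ge w r) : Prop :=
  T (Submodule.Quotient.mk x) = Submodule.Quotient.mk x'

/-- A derivation of degree `0` of the graded ring `gr_w R`: it acts on the part of each degree and
satisfies the Leibniz rule; `leib` says it for the classes of `x` and `y`, whose product is the class of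
`x y` in degree `r + s`. -/
structure GrDer (w : CVal R) where
  T : ∀ r : ℝ, Module.End ℂ (Gr w r)
  leib : ∀ (r s : ℝ) (x x' : ge w r) (y y' : ge w s) (z z' : ge w (r + s)),
    Maps w r (T r) x x' → Maps w s (T s) y y' → (z : R) = x * y → (z' : R) = x' * y + x * y' →
      Maps w (r + s) (T (r + s)) z z'

/-- The derivation `δ` of `gr_w R` commutes with the automorphism of `gr_w R` induced by the
automorphism `σ` of `R` (which preserves `w`). -/
def Comm (w : CVal R) (δ : GrDer w) (σ : R ≃ₐ[ℂ] R) : Prop :=
  ∀ (r : ℝ) (x x' y y' : ge w r), (y : R) = σ (x : R) → (y' : R) = σ (x' : R) →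
    Maps w r (δ.T r) x x' → Maps w r (δ.T r) y y'

/-- `T` is diagonalizable -/
def Diag (w : CVal R) (r : ℝ) (T : Module.End ℂ (Gr w r)) : Prop :=
  ⨆ μ : ℂ, Module.End.eigenspace T μ = ⊤

/-- Every diagonalizable derivation of degree `0` of `gr_w R` which commutes with `L` is a multiple
`c ξ` of the Reeb field `ξ`, which is multiplication by `r` in degree `r`.  So the maximal tori of
the group of the automorphisms of `gr_w R` which preserve the grading and commute with `L` have rank
one. -/
def RankOne (w : CVal R) (L : Set (R ≃ₐ[ℂ] R)) : Prop := ∀ δ : GrDer w,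
  (∀ r : ℝ, Diag w r (δ.T r)) → (∀ σ ∈ L, Comm w δ σ) →
    ∃ c : ℂ, ∀ (r : ℝ) (x : ge w r), Maps w r (δ.T r) x ((c * (r : ℂ)) • x)

/-- The derivation of `gr_w R` induced by `E` (which does not lower `w`) has on the part of degree `r`
only the eigenvalue `c r`: if `E f - μ f` has larger valuation than `f`, then `μ = c r`, `r` the
valuation of `f`. -/
def SingleEig (w : CVal R) (E : Derivation ℂ R R) (c : ℂ) : Prop :=
  ∀ (f : R) (r : ℝ) (μ : ℂ), w.v f = (r : WithTop ℝ) → w.v f < w.v (E f - μ • f) → μ = c * r

end

end Pool.Agent.Helper20.LT
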