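import Pool.Agent.Helper20.LT.Mn

/-!
# The order of the bracket, eigenvalues on the maximal ideal
-/

set_option autoImplicit false

namespace Pool.Agent.Helper20.LT

open IsLocalRing Pool.Agent.Helper11.SY Module

noncomputable section

variable {R : Type} [CommRing R] [Algebra ℂ R] [IsLocalRing R]

theorem sum_gt (w : CVal R) {ι : Type} (s : Finset ι) (x : ι → R) {t : ℝ}
    (hx : ∀ i ∈ s, (t : WithTop ℝ) < w.v (x i)) : (t : WithTop ℝ) < w.v (∑ i ∈ s, x i) := by
  classical
  induction s using Finset.induction_on with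
  | empty =>
    rw [Finset.sum_empty, w.v.map_zero]
    exact WithTop.coe_lt_top t
  | insert a s ha ih =>
    rw [Finset.sum_insert ha]
    exact w.v.map_lt_add (hx a (Finset.mem_insert_self _ _))
      (ih fun i hi => hx i (Finset.mem_insert_of_mem hi))

theorem dsum {ι : Type} (s : Finset ι) (D : ι → Derivation ℂ R R) (y : R) :
    (∑ i ∈ s, D i) y = ∑ i ∈ s, D i y := by
  classical
  induction s using Finset.induction_on with
  | empty => rfl
  | insert a s ha ih => rw [Finset.sum_insert ha, Finset.sum_insert ha, Derivation.add_apply, ih]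

theorem order [IsDomain R] [IsNoetherianRing R] [IsAdicComplete (maximalIdeal R) R]
    (hres : ∀ f : R, ∃ c : ℂ, f - algebraMap ℂ R c ∈ maximalIdeal R) {n : ℕ} (hn : 1 ≤ n)
    {S : Symp R n} {w : CVal R} {E : Derivation ℂ R R} (hE : ∀ f, w.v f ≤ w.v (E f))
    (hEm : ∀ f ∈ maximalIdeal R, E f ∈ maximalIdeal R) (hL : Liouville S E) {c : ℂ}
    (hc : SingleEig w E c) {δ : ℝ} (hδ : c * δ = n) : OrderGe S w (δ / n) := by
  have hn0 : (n : ℝ) ≠ 0 := by
    have : n ≠ 0 := by omega
    exact_mod_cast this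
  have hnC : (n : ℂ) ≠ 0 := by exact_mod_cast hn0
  have hc0 : c ≠ 0 := by
    intro h0
    rw [h0, zero_mul] at hδ
    exact hnC hδ.symm
  intro f g
  by_cases hb0 : S.br f g = 0
  · rw [hb0, w.v.map_zero, top_add]
    exact le_top
  have hf0 : f ≠ 0 := by
    rintro rfl
    apply hb0
    rw [map_zero, Derivation.zero_apply]
  have hg0 : g ≠ 0 := by
    rintro rfl
    exact hb0 (map_zero _)
  obtain ⟨r, hr⟩ := real_val w hf0
  obtain ⟨s, hs⟩ := real_val w hg0
  obtain ⟨t, ht⟩ := real_val w hb0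
  rw [hr, hs, ht, ← WithTop.coe_add, ← WithTop.coe_add, WithTop.coe_le_coe]
  by_contra hcon
  rw [not_le] at hcon
  obtain ⟨k, hk⟩ := pow_le_idl w (t + 1)
  obtain ⟨ρ2, hρ2⟩ := chevalley hres w (k + 1)
  obtain ⟨K2, hK2⟩ := pow_le_idl w ρ2
  set K := max (k + 1) K2 with hK
  have hKk : maximalIdeal R ^ K ≤ maximalIdeal R ^ (k + 1) := Ideal.pow_le_pow_right (le_max_left _ _)
  have hKρ : maximalIdeal R ^ K ≤ w.idl ρ2 := (Ideal.pow_le_pow_right (le_max_right _ _)).trans hK2
  obtain ⟨m, F, μ, hFr, hFg, hFs⟩ := decomp hres hE hEm K r hr.ge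
  obtain ⟨m', G, ν, hGs, hGg, hGs'⟩ := decomp hres hE hEm K s hs.ge
  -- the brackets of the components have valuation greater than `t`
  have hkey : ∀ i j, (t : WithTop ℝ) < w.v (S.br (F i) (G j)) := by
    intro i j
    by_contra hlt
    rw [not_lt] at hlt
    have hy0 : S.br (F i) (G j) ≠ 0 := by
      intro h0
      rw [h0, w.v.map_zero] at hlt
      exact absurd hlt (not_le.2 (WithTop.coe_lt_top t))
    obtain ⟨y, hy⟩ := real_val w hy0
    rw [hy, WithTop.coe_le_coe] at hlt
    have hyk : S.br (F i) (G j) ∉ maximalIdeal R ^ k := by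
      intro h0
      have h1 := hk h0
      rw [mem_idl, hy, WithTop.coe_le_coe] at h1
      linarith
    have hFk : F i ∉ maximalIdeal R ^ (k + 1) := fun h0 => hyk (br_pow S k h0 _)
    have hGk : G j ∉ maximalIdeal R ^ (k + 1) := fun h0 => hyk (der_pow _ (S.br (F i)) k h0)
    obtain ⟨a, ha⟩ := real_val w (f := F i) (fun h0 => hFk (by rw [h0]; exact Ideal.zero_mem _))
    obtain ⟨b, hb⟩ := real_val w (f := G j) (fun h0 => hGk (by rw [h0]; exact Ideal.zero_mem _))
    have haρ : a < ρ2 := by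
      by_contra h0
      exact hFk (hρ2 _ (by rw [ha, WithTop.coe_le_coe]; exact not_lt.1 h0))
    have hbρ : b < ρ2 := by
      by_contra h0
      exact hGk (hρ2 _ (by rw [hb, WithTop.coe_le_coe]; exact not_lt.1 h0))
    have h1 := (hFg i).lead hE hc hKρ ha haρ
    have h2 := (hGg j).lead hE hc hKρ hb hbρ
    have h3 := (gen_br hL hEm ((hFg i).mono hKk) ((hGg j).mono hKk)).lead hE hc hk hy (by linarith)
    have har : r ≤ a := by
      have := hFr i
      rwa [ha, WithTop.coe_le_coe] at this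
    have hbs : s ≤ b := by
      have := hGs j
      rwa [hb, WithTop.coe_le_coe] at this
    -- `c (a + b - y) = 1`
    have h4 : ((a + b - y : ℝ) : ℂ) = ((δ / n : ℝ) : ℂ) := by
      have h5 : c * ((a : ℂ) + b - y) = 1 := by
        rw [h1, h2] at h3
        linear_combination h3
      have h6 : c * ((δ : ℂ) / n) = 1 := by
        rw [← mul_div_assoc, hδ, div_self hnC]
      push_cast
      exact mul_left_cancel₀ hc0 (h5.trans h6.symm)
    have h5 : a + b - y = δ / n := by exact_mod_cast h4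
    linarith
  have hsum : S.br f g = ∑ i, ∑ j, S.br (F i) (G j) +
      (S.br (f - ∑ i, F i) g + S.br (∑ i, F i) (g - ∑ j, G j)) := by
    have h1 : ∑ i, ∑ j, S.br (F i) (G j) = S.br (∑ i, F i) (∑ j, G j) := by
      have h0 : S.br (∑ i, F i) = ∑ i, S.br (F i) := map_sum _ _ _
      rw [h0, dsum]
      exact Finset.sum_congr rfl fun i _ => (map_sum _ _ _).symm
    rw [h1, map_sub, map_sub, Derivation.sub_apply]
    ring
  have hlt : (t : WithTop ℝ) < w.v (S.br f g) := by
    rw [hsum]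
    refine w.v.map_lt_add (sum_gt w _ _ fun i _ => sum_gt w _ _ fun j _ => hkey i j) ?_
    refine lt_of_lt_of_le (b := ((t + 1 : ℝ) : WithTop ℝ)) (by
      rw [WithTop.coe_lt_coe]
      linarith) ?_
    refine hk (Ideal.add_mem _ (br_pow S k (hKk hFs) _) ?_)
    exact der_pow _ (S.br (∑ i, F i)) k (hKk hGs')
  rw [ht] at hlt
  exact lt_irrefl _ hlt

/-- The eigenvalues of `E` on `m / m ^ k` are positive. -/
theorem eig_pos [IsDomain R] [IsNoetherianRing R] [IsAdicComplete (maximalIdeal R) R]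
    (hres : ∀ f : R, ∃ c : ℂ, f - algebraMap ℂ R c ∈ maximalIdeal R)
    {w : CVal R} {E : Derivation ℂ R R} (hE : ∀ f, w.v f ≤ w.v (E f))
    (hEm : ∀ f ∈ maximalIdeal R, E f ∈ maximalIdeal R) {c : ℂ}
    (hc : SingleEig w E c) (k : ℕ) (μ : ℂ) (x : R) (hx : x ∈ maximalIdeal R)
    (hxk : x ∉ maximalIdeal R ^ k) (h : E x - μ • x ∈ maximalIdeal R ^ k) :
    ∃ (g : R) (r : ℝ), 0 < r ∧ w.v g = (r : WithTop ℝ) ∧ μ = c * r := by
  obtain ⟨ρ, hρ⟩ := chevalley hres w k
  obtain ⟨K, hK⟩ := pow_le_idl w ρ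
  by_contra hcon
  push Not at hcon
  -- the space `m / (m ∩ {v ≥ ρ})`
  let M : Submodule ℂ R := (maximalIdeal R).restrictScalars ℂ
  have hmem : ∀ y : M, (y : R) ∈ maximalIdeal R := fun y => y.2
  let q : M →ₗ[ℂ] (R ⧸ w.idl ρ) := (Ideal.Quotient.mkₐ ℂ (w.idl ρ)).toLinearMap ∘ₗ M.subtype
  have hq : ∀ y : M, y ∈ LinearMap.ker q ↔ (y : R) ∈ w.idl ρ := by
    intro y
    rw [LinearMap.mem_ker]
    exact Ideal.Quotient.eq_zero_iff_mem
  have : FiniteDimensional ℂ (R ⧸ maximalIdeal R ^ K) := fin_pow hres K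
  have : FiniteDimensional ℂ (R ⧸ w.idl ρ) :=
    Module.Finite.of_surjective (Ideal.Quotient.factorₐ ℂ hK).toLinearMap
      (Ideal.Quotient.factor_surjective hK)
  have h3 : FiniteDimensional ℂ (M ⧸ LinearMap.ker q) :=
    Module.Finite.equiv (LinearMap.quotKerEquivRange q).symm
  let TM : M →ₗ[ℂ] M := LinearMap.restrict (TE E μ) (fun y hy => TE_mem hEm μ hy)
  let T : (M ⧸ LinearMap.ker q) →ₗ[ℂ] (M ⧸ LinearMap.ker q) :=
    (LinearMap.ker q).mapQ (LinearMap.ker q) TM (by
      intro y hy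
      rw [Submodule.mem_comap, hq]
      exact le_trans ((hq y).1 hy) (val_TE hE μ (y : R)))
  have hinj : Function.Injective T := by
    rw [← LinearMap.ker_eq_bot, LinearMap.ker_eq_bot']
    intro y hy
    obtain ⟨y, rfl⟩ := Submodule.Quotient.mk_surjective _ y
    have h4 : T (Submodule.Quotient.mk y) = Submodule.Quotient.mk (TM y) := rfl
    rw [h4, Submodule.Quotient.mk_eq_zero, hq] at hy
    rw [Submodule.Quotient.mk_eq_zero, hq]
    by_contra h5
    have hy' : (ρ : WithTop ℝ) ≤ w.v (TE E μ (y : R)) := hy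
    rw [mem_idl, not_le] at h5
    have hy0 : (y : R) ≠ 0 := by
      intro h0
      rw [h0, w.v.map_zero] at h5
      exact absurd h5 (not_lt.2 le_top)
    obtain ⟨r, hr⟩ := real_val w hy0
    have hrpos : 0 < r := by
      have h6 := (w.pos (y : R)).2 y.2
      rw [hr] at h6
      exact_mod_cast h6
    refine hcon (y : R) r hrpos hr (hc (y : R) r μ hr ?_)
    exact lt_of_lt_of_le h5 hy'
  have hsurj : Function.Surjective T := LinearMap.surjective_of_injective hinj
  -- the quotient `m / m ^ k`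
  let q' : M →ₗ[ℂ] (R ⧸ maximalIdeal R ^ k) :=
    (Ideal.Quotient.mkₐ ℂ (maximalIdeal R ^ k)).toLinearMap ∘ₗ M.subtype
  have hq' : ∀ y : M, y ∈ LinearMap.ker q' ↔ (y : R) ∈ maximalIdeal R ^ k := by
    intro y
    rw [LinearMap.mem_ker]
    exact Ideal.Quotient.eq_zero_iff_mem
  have : FiniteDimensional ℂ (R ⧸ maximalIdeal R ^ k) := fin_pow hres k
  have h7 : FiniteDimensional ℂ (M ⧸ LinearMap.ker q') :=
    Module.Finite.equiv (LinearMap.quotKerEquivRange q').symm
  let T' : (M ⧸ LinearMap.ker q') →ₗ[ℂ] (M ⧸ LinearMap.ker q') :=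
    (LinearMap.ker q').mapQ (LinearMap.ker q') TM (by
      intro y hy
      rw [Submodule.mem_comap, hq']
      exact TE_mem (pow_stable E hEm k) μ ((hq' y).1 hy))
  have hsurj' : Function.Surjective T' := by
    intro y
    obtain ⟨y, rfl⟩ := Submodule.Quotient.mk_surjective _ y
    obtain ⟨z, hz⟩ := hsurj (Submodule.Quotient.mk y)
    obtain ⟨z, rfl⟩ := Submodule.Quotient.mk_surjective _ z
    refine ⟨Submodule.Quotient.mk z, ?_⟩
    have h8 : T (Submodule.Quotient.mk z) = Submodule.Quotient.mk (TM z) := rfl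
    have h9 : T' (Submodule.Quotient.mk z) = Submodule.Quotient.mk (TM z) := rfl
    rw [h8, Submodule.Quotient.eq, hq] at hz
    rw [h9, Submodule.Quotient.eq, hq']
    exact hρ _ hz
  have hinj' : Function.Injective T' := LinearMap.injective_iff_surjective.2 hsurj'
  have h10 : T' (Submodule.Quotient.mk ⟨x, hx⟩) = 0 := by
    have h9 : T' (Submodule.Quotient.mk ⟨x, hx⟩) = Submodule.Quotient.mk (TM ⟨x, hx⟩) := rfl
    rw [h9, Submodule.Quotient.mk_eq_zero, hq']
    exact h
  have h11 : (Submodule.Quotient.mk ⟨x, hx⟩ : M ⧸ LinearMap.ker q') = 0 :=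
    hinj' (h10.trans (map_zero T').symm)
  rw [Submodule.Quotient.mk_eq_zero, hq'] at h11
  exact hxk h11

end

end Pool.Agent.Helper20.LT
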