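import Pool.Agent.Helper20.LT.Jo

/-!
# Generalized eigenvectors modulo an ideal
-/

set_option autoImplicit false

namespace Pool.Agent.Helper20.LT

open IsLocalRing Pool.Agent.Helper11.SY Module

noncomputable section

variable {R : Type} [CommRing R] [Algebra ℂ R]

/-- `E - μ` -/
def TE (E : Derivation ℂ R R) (μ : ℂ) : Module.End ℂ R := (E : R →ₗ[ℂ] R) - μ • (1 : Module.End ℂ R)

theorem TE_apply (E : Derivation ℂ R R) (μ : ℂ) (x : R) : TE E μ x = E x - μ • x := rfl

/-- `x` is a generalized eigenvector of `E` modulo `I`. -/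
def GenI (E : Derivation ℂ R R) (I : Ideal R) (μ : ℂ) (x : R) : Prop :=
  ∃ N : ℕ, (TE E μ ^ N) x ∈ I

theorem ideal_smul {I : Ideal R} (c : ℂ) {x : R} (hx : x ∈ I) : c • x ∈ I := by
  rw [Algebra.smul_def]
  exact Ideal.mul_mem_left _ _ hx

theorem TE_mem {E : Derivation ℂ R R} {I : Ideal R} (hI : ∀ x ∈ I, E x ∈ I) (μ : ℂ) {x : R}
    (hx : x ∈ I) : TE E μ x ∈ I := by
  rw [TE_apply]
  exact Ideal.sub_mem _ (hI x hx) (ideal_smul μ hx)

theorem TE_pow_mem {E : Derivation ℂ R R} {I : Ideal R} (hI : ∀ x ∈ I, E x ∈ I) (μ : ℂ) (N : ℕ)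
    {x : R} (hx : x ∈ I) : (TE E μ ^ N) x ∈ I := by
  induction N with
  | zero => rwa [pow_zero, Module.End.one_apply]
  | succ N ih =>
    rw [pow_succ', Module.End.mul_apply]
    exact TE_mem hI μ ih

theorem GenI.ge {E : Derivation ℂ R R} {I : Ideal R} (hI : ∀ x ∈ I, E x ∈ I) {μ : ℂ} {x : R}
    {N : ℕ} (hN : (TE E μ ^ N) x ∈ I) {M : ℕ} (hM : N ≤ M) : (TE E μ ^ M) x ∈ I := by
  obtain ⟨d, rfl⟩ := Nat.exists_eq_add_of_le' hM
  rw [pow_add, Module.End.mul_apply]
  exact TE_pow_mem hI μ d hN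

theorem GenI.add {E : Derivation ℂ R R} {I : Ideal R} (hI : ∀ x ∈ I, E x ∈ I) {μ : ℂ} {x y : R}
    (hx : GenI E I μ x) (hy : GenI E I μ y) : GenI E I μ (x + y) := by
  obtain ⟨a, ha⟩ := hx
  obtain ⟨b, hb⟩ := hy
  refine ⟨max a b, ?_⟩
  rw [map_add]
  exact Ideal.add_mem _ (GenI.ge hI ha (le_max_left _ _)) (GenI.ge hI hb (le_max_right _ _))

theorem GenI.of_mem {E : Derivation ℂ R R} {I : Ideal R} {μ : ℂ} {x : R} (hx : x ∈ I) :
    GenI E I μ x := ⟨0, by rwa [pow_zero, Module.End.one_apply]⟩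

theorem GenI.smul {E : Derivation ℂ R R} {I : Ideal R} {μ : ℂ} {x : R} (c : ℂ)
    (hx : GenI E I μ x) : GenI E I μ (c • x) := by
  obtain ⟨a, ha⟩ := hx
  exact ⟨a, by rw [map_smul]; exact ideal_smul c ha⟩

theorem GenI.mono {E : Derivation ℂ R R} {I J : Ideal R} (hIJ : I ≤ J) {μ : ℂ} {x : R}
    (hx : GenI E I μ x) : GenI E J μ x := by
  obtain ⟨a, ha⟩ := hx
  exact ⟨a, hIJ ha⟩

theorem GenI.sum {E : Derivation ℂ R R} {I : Ideal R} (hI : ∀ x ∈ I, E x ∈ I) {μ : ℂ} {ι : Type}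
    (s : Finset ι) (x : ι → R) (hx : ∀ i ∈ s, GenI E I μ (x i)) : GenI E I μ (∑ i ∈ s, x i) := by
  classical
  induction s using Finset.induction_on with
  | empty =>
    rw [Finset.sum_empty]
    exact GenI.of_mem (Ideal.zero_mem _)
  | insert a s ha ih =>
    rw [Finset.sum_insert ha]
    exact GenI.add hI (hx a (Finset.mem_insert_self _ _))
      (ih fun i hi => hx i (Finset.mem_insert_of_mem hi))

/-- Leibniz rule for generalized eigenvectors. -/
theorem genI_bil {E : Derivation ℂ R R} {I J : Ideal R} (hJ : ∀ x ∈ J, E x ∈ J)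
    (β : R → R → R) (ν : ℂ)
    (hβ : ∀ (a b : ℂ) (x y : R), TE E (a + b + ν) (β x y) = β (TE E a x) y + β x (TE E b y))
    (h1 : ∀ x ∈ I, ∀ y, β x y ∈ J) (h2 : ∀ y ∈ I, ∀ x, β x y ∈ J) {a b : ℂ} {x y : R}
    (hx : GenI E I a x) (hy : GenI E I b y) : GenI E J (a + b + ν) (β x y) := by
  obtain ⟨p, hp⟩ := hx
  obtain ⟨q, hq⟩ := hy
  refine ⟨p + q, ?_⟩
  have key : ∀ (m : ℕ) (p q : ℕ) (x : R) (y : R), p + q = m →
      (TE E a ^ p) x ∈ I → (TE E b ^ q) y ∈ I → (TE E (a + b + ν) ^ m) (β x y) ∈ J := by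
    intro m
    induction m with
    | zero =>
      intro p q x y hpq hp hq
      have hp0 : p = 0 := by omega
      rw [hp0, pow_zero, Module.End.one_apply] at hp
      rw [pow_zero, Module.End.one_apply]
      exact h1 x hp y
    | succ m ih =>
      intro p q x y hpq hp hq
      rcases Nat.eq_zero_or_pos p with hp0 | hp0
      · rw [hp0, pow_zero, Module.End.one_apply] at hp
        exact TE_pow_mem hJ _ _ (h1 x hp y)
      · rcases Nat.eq_zero_or_pos q with hq0 | hq0
        · rw [hq0, pow_zero, Module.End.one_apply] at hq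
          exact TE_pow_mem hJ _ _ (h2 y hq x)
        · rw [pow_succ, Module.End.mul_apply, hβ, map_add]
          refine Ideal.add_mem _ (ih (p - 1) q _ y (by omega) ?_ hq)
            (ih p (q - 1) x _ (by omega) hp ?_)
          · rw [← Module.End.mul_apply, ← pow_succ, Nat.sub_add_cancel hp0]
            exact hp
          · rw [← Module.End.mul_apply, ← pow_succ, Nat.sub_add_cancel hq0]
            exact hq
  exact key (p + q) p q x y rfl hp hq

theorem GenI.mul {E : Derivation ℂ R R} {I : Ideal R} (hI : ∀ x ∈ I, E x ∈ I) {a b : ℂ} {x y : R}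
    (hx : GenI E I a x) (hy : GenI E I b y) : GenI E I (a + b) (x * y) := by
  have h := genI_bil (I := I) (J := I) hI (fun x y => x * y) 0 (by
    intro a b x y
    simp only [TE_apply, Derivation.leibniz, smul_eq_mul, Algebra.smul_def, map_add, map_zero]
    ring) (fun x hx y => Ideal.mul_mem_right _ _ hx) (fun y hy x => Ideal.mul_mem_left _ _ hy) hx hy
  rwa [add_zero] at h

theorem GenI.one {E : Derivation ℂ R R} {I : Ideal R} : GenI E I 0 (1 : R) := by
  refine ⟨1, ?_⟩
  rw [pow_one, TE_apply, Derivation.map_one_eq_zero, zero_smul, sub_zero]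
  exact Ideal.zero_mem _

theorem GenI.prod {E : Derivation ℂ R R} {I : Ideal R} (hI : ∀ x ∈ I, E x ∈ I) {ι : Type}
    (s : Finset ι) (x : ι → R) (μ : ι → ℂ) (hx : ∀ i ∈ s, GenI E I (μ i) (x i)) :
    GenI E I (∑ i ∈ s, μ i) (∏ i ∈ s, x i) := by
  classical
  induction s using Finset.induction_on with
  | empty =>
    rw [Finset.sum_empty, Finset.prod_empty]
    exact GenI.one
  | insert a s ha ih =>
    rw [Finset.sum_insert ha, Finset.prod_insert ha]
    exact GenI.mul hI (hx a (Finset.mem_insert_self _ _))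
      (ih fun i hi => hx i (Finset.mem_insert_of_mem hi))

theorem GenI.units {E : Derivation ℂ R R} {I : Ideal R} {μ : ℂ} {x : R} (e : ℤˣ)
    (hx : GenI E I μ x) : GenI E I μ (e • x) := by
  rcases Int.units_eq_one_or e with rfl | rfl
  · rwa [one_smul]
  · have h1 := hx.smul (-1)
    rw [neg_one_smul] at h1
    rwa [Units.neg_smul, one_smul]

/-- the determinant of a matrix whose entries `i, j` have the eigenvalues `a i + a j + ν` -/
theorem GenI.det {E : Derivation ℂ R R} {I : Ideal R} (hI : ∀ x ∈ I, E x ∈ I) {m : ℕ}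
    (M : Matrix (Fin m) (Fin m) R) (a : Fin m → ℂ) (ν : ℂ)
    (hM : ∀ i j, GenI E I (a i + a j + ν) (M i j)) :
    GenI E I (2 * ∑ i, a i + m * ν) M.det := by
  rw [Matrix.det_apply]
  refine GenI.sum hI _ _ fun σ _ => GenI.units _ ?_
  have h1 := GenI.prod hI Finset.univ (fun i => M (σ i) i) (fun i => a (σ i) + a i + ν)
    (fun i _ => hM (σ i) i)
  have h2 : ∑ i, (a (σ i) + a i + ν) = 2 * ∑ i, a i + m * ν := by
    rw [Finset.sum_add_distrib, Finset.sum_add_distrib, Equiv.sum_comp σ a, Finset.sum_const,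
      Finset.card_univ, Fintype.card_fin, nsmul_eq_mul]
    ring
  rwa [h2] at h1

/-- derivations map `J ^ (k + 1)` to `J ^ k` -/
theorem der_pow (J : Ideal R) (D : Derivation ℂ R R) (k : ℕ) {x : R} (hx : x ∈ J ^ (k + 1)) :
    D x ∈ J ^ k := by
  induction k generalizing x with
  | zero =>
    rw [pow_zero, Ideal.one_eq_top]
    trivial
  | succ k ih =>
    rw [pow_succ] at hx
    refine Submodule.mul_induction_on hx (fun a ha b hb => ?_) (fun a b ha hb => ?_)
    · rw [Derivation.leibniz, smul_eq_mul, smul_eq_mul]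
      refine Ideal.add_mem _ (Ideal.mul_mem_right _ _ ha) ?_
      rw [mul_comm, pow_succ]
      exact Ideal.mul_mem_mul (ih ha) hb
    · rw [map_add]
      exact Ideal.add_mem _ ha hb

end

end Pool.Agent.Helper20.LT
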