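import Pool.Agent.Helper20.LT.Ch

/-!
# The semisimple part of a derivation of the graded ring
-/

set_option autoImplicit false

namespace Pool.Agent.Helper20.LT

open IsLocalRing Pool.Agent.Helper11.SY Module

noncomputable section

theorem exists_ss {V : Type} [AddCommGroup V] [Module ℂ V] [FiniteDimensional ℂ V]
    (f : Module.End ℂ V) : ∃ s : Module.End ℂ V, (⨆ μ : ℂ, Module.End.eigenspace s μ = ⊤) ∧
      ∀ μ : ℂ, ∀ v ∈ Module.End.maxGenEigenspace f μ, s v = μ • v := by
  obtain ⟨m, hm, s, hs, hnil, hss, hf⟩ := Module.End.exists_isNilpotent_isSemisimple (f := f)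
  refine ⟨s, ?_, ?_⟩
  · rw [← (hss.iSup_maxGenEigenspace_eq_top_iff)]
    exact Module.End.iSup_maxGenEigenspace_eq_top s
  · intro μ v hv
    refine Module.End.apply_eq_of_mem_of_comm_of_isFinitelySemisimple_of_isNil hv ?_
      hss.isFinitelySemisimple ?_
    · exact Algebra.commute_of_mem_adjoin_self hs
    · have h1 : f - s = m := by
        rw [hf, add_sub_cancel_right]
      rw [h1]
      exact hnil

variable {R : Type} [CommRing R] [Algebra ℂ R] [IsLocalRing R]

/-- a generalized eigenvector: a power of `f - μ` kills it -/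
theorem mem_gen {V : Type} [AddCommGroup V] [Module ℂ V] (f : Module.End ℂ V) (μ : ℂ) (v : V) :
    v ∈ Module.End.maxGenEigenspace f μ ↔ ∃ N : ℕ, ((f - μ • (1 : Module.End ℂ V)) ^ N) v = 0 := by
  rw [Module.End.mem_maxGenEigenspace]

/-- Leibniz rule for generalized eigenvectors: a bilinear map `β` with
`h (β x y) = β (f x) y + β x (g y)` maps generalized eigenvectors to generalized eigenvectors. -/
theorem gen_mul {U V W : Type} [AddCommGroup U] [Module ℂ U] [AddCommGroup V] [Module ℂ V]
    [AddCommGroup W] [Module ℂ W] (β : U →ₗ[ℂ] V →ₗ[ℂ] W) (f : Module.End ℂ U)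
    (g : Module.End ℂ V) (h : Module.End ℂ W)
    (hβ : ∀ x y, h (β x y) = β (f x) y + β x (g y)) {μ ν : ℂ} {x : U} {y : V}
    (hx : x ∈ Module.End.maxGenEigenspace f μ) (hy : y ∈ Module.End.maxGenEigenspace g ν) :
    β x y ∈ Module.End.maxGenEigenspace h (μ + ν) := by
  rw [mem_gen] at hx hy ⊢
  obtain ⟨a, ha⟩ := hx
  obtain ⟨b, hb⟩ := hy
  refine ⟨a + b, ?_⟩
  have hβ' : ∀ x y, (h - (μ + ν) • (1 : Module.End ℂ W)) (β x y) =
      β ((f - μ • (1 : Module.End ℂ U)) x) y + β x ((g - ν • (1 : Module.End ℂ V)) y) := by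
    intro x y
    simp only [LinearMap.sub_apply, LinearMap.smul_apply, Module.End.one_apply, hβ, map_sub,
      map_smul]
    module
  have key : ∀ (m : ℕ) (a b : ℕ) (x : U) (y : V), a + b = m →
      ((f - μ • (1 : Module.End ℂ U)) ^ a) x = 0 → ((g - ν • (1 : Module.End ℂ V)) ^ b) y = 0 →
      ((h - (μ + ν) • (1 : Module.End ℂ W)) ^ m) (β x y) = 0 := by
    intro m
    induction m with
    | zero =>
      intro a b x y hab ha hb
      have ha0 : a = 0 := by omega
      rw [ha0, pow_zero, Module.End.one_apply] at ha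
      rw [ha, map_zero, LinearMap.zero_apply, map_zero]
    | succ m ih =>
      intro a b x y hab ha hb
      rw [pow_succ, Module.End.mul_apply, hβ', map_add]
      rcases Nat.eq_zero_or_pos a with ha0 | ha0
      · rw [ha0, pow_zero, Module.End.one_apply] at ha
        rw [ha, map_zero, map_zero, LinearMap.zero_apply, LinearMap.zero_apply, map_zero, add_zero]
      · rcases Nat.eq_zero_or_pos b with hb0 | hb0
        · rw [hb0, pow_zero, Module.End.one_apply] at hb
          rw [hb]
          simp only [map_zero, add_zero]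
        · rw [ih (a - 1) b _ y (by omega) (by
              rw [← Module.End.mul_apply, ← pow_succ, Nat.sub_add_cancel ha0]
              exact ha) hb,
            ih a (b - 1) x _ (by omega) ha (by
              rw [← Module.End.mul_apply, ← pow_succ, Nat.sub_add_cancel hb0]
              exact hb), add_zero]
  exact key (a + b) a b x y rfl ha hb

/-- `E` on the elements of valuation at least `r` -/
def geE (w : CVal R) (E : Derivation ℂ R R) (hE : ∀ f, w.v f ≤ w.v (E f)) (r : ℝ) :
    ge w r →ₗ[ℂ] ge w r :=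
  LinearMap.restrict (E : R →ₗ[ℂ] R) (fun x hx => le_trans hx (hE x))

theorem coe_geE (w : CVal R) (E : Derivation ℂ R R) (hE : ∀ f, w.v f ≤ w.v (E f)) (r : ℝ)
    (x : ge w r) : (geE w E hE r x : R) = E x := rfl

/-- `E` on the graded ring -/
def grE (w : CVal R) (E : Derivation ℂ R R) (hE : ∀ f, w.v f ≤ w.v (E f)) (r : ℝ) :
    Module.End ℂ (Gr w r) :=
  (gt w r).mapQ (gt w r) (geE w E hE r) (fun x hx => lt_of_lt_of_le hx (hE (x : R)))

theorem grE_mk (w : CVal R) (E : Derivation ℂ R R) (hE : ∀ f, w.v f ≤ w.v (E f)) (r : ℝ)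
    (x : ge w r) :
    grE w E hE r (Submodule.Quotient.mk x) = Submodule.Quotient.mk (geE w E hE r x) := rfl

theorem mul_ge (w : CVal R) (r s : ℝ) (x : ge w r) (y : ge w s) : (x : R) * (y : R) ∈ ge w (r + s) := by
  show ((r + s : ℝ) : WithTop ℝ) ≤ w.v ((x : R) * (y : R))
  rw [w.v.map_mul, WithTop.coe_add]
  exact add_le_add x.2 y.2

/-- the product of an element `x` of valuation at least `r` with those of valuation at least `s` -/
def mulL (w : CVal R) (r s : ℝ) (x : ge w r) : ge w s →ₗ[ℂ] ge w (r + s) where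
  toFun y := ⟨(x : R) * (y : R), mul_ge w r s x y⟩
  map_add' y y' := Subtype.ext (mul_add _ _ _)
  map_smul' c y := Subtype.ext (mul_smul_comm _ _ _)

theorem coe_mulL (w : CVal R) (r s : ℝ) (x : ge w r) (y : ge w s) :
    (mulL w r s x y : R) = x * y := rfl

theorem mulL_add (w : CVal R) (r s : ℝ) (x x' : ge w r) :
    mulL w r s (x + x') = mulL w r s x + mulL w r s x' :=
  LinearMap.ext fun _ => Subtype.ext (add_mul _ _ _)

theorem mulL_smul (w : CVal R) (r s : ℝ) (c : ℂ) (x : ge w r) :
    mulL w r s (c • x) = c • mulL w r s x :=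
  LinearMap.ext fun _ => Subtype.ext (smul_mul_assoc _ _ _)

theorem mulL_right (w : CVal R) (r s : ℝ) (x : ge w r) :
    gt w s ≤ (gt w (r + s)).comap (mulL w r s x) := by
  intro y hy
  show ((r + s : ℝ) : WithTop ℝ) < w.v ((x : R) * (y : R))
  rw [w.v.map_mul, WithTop.coe_add]
  exact WithTop.add_lt_add_of_le_of_lt WithTop.coe_ne_top x.2 hy

theorem mulL_left (w : CVal R) (r s : ℝ) (x : ge w r) (hx : x ∈ gt w r) (y : ge w s) :
    mulL w r s x y ∈ gt w (r + s) := by
  show ((r + s : ℝ) : WithTop ℝ) < w.v ((x : R) * (y : R))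
  rw [w.v.map_mul, WithTop.coe_add]
  exact WithTop.add_lt_add_of_lt_of_le WithTop.coe_ne_top hx y.2

/-- the product of `x` with the elements of degree `s` of the graded ring `gr_w R` -/
def mulQ (w : CVal R) (r s : ℝ) (x : ge w r) : Gr w s →ₗ[ℂ] Gr w (r + s) :=
  (gt w s).mapQ (gt w (r + s)) (mulL w r s x) (mulL_right w r s x)

theorem mulQ_add (w : CVal R) (r s : ℝ) (x x' : ge w r) :
    mulQ w r s (x + x') = mulQ w r s x + mulQ w r s x' := by
  ext y
  simp only [mulQ, LinearMap.comp_apply, Submodule.mkQ_apply, Submodule.mapQ_apply, mulL_add,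
    LinearMap.add_apply, Submodule.Quotient.mk_add]

theorem mulQ_smul (w : CVal R) (r s : ℝ) (c : ℂ) (x : ge w r) :
    mulQ w r s (c • x) = c • mulQ w r s x := by
  ext y
  simp only [mulQ, LinearMap.comp_apply, Submodule.mkQ_apply, Submodule.mapQ_apply, mulL_smul,
    LinearMap.smul_apply, Submodule.Quotient.mk_smul]

/-- the product of the elements of valuation at least `r` with those of degree `s` -/
def mulG (w : CVal R) (r s : ℝ) : ge w r →ₗ[ℂ] Gr w s →ₗ[ℂ] Gr w (r + s) where
  toFun := mulQ w r s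
  map_add' := mulQ_add w r s
  map_smul' := mulQ_smul w r s

theorem mulG_ker (w : CVal R) (r s : ℝ) : gt w r ≤ LinearMap.ker (mulG w r s) := by
  intro x hx
  rw [LinearMap.mem_ker]
  ext y
  show Submodule.Quotient.mk (mulL w r s x y) = 0
  rw [Submodule.Quotient.mk_eq_zero]
  exact mulL_left w r s x hx y

/-- the multiplication of the graded ring `gr_w R` -/
def mulGr (w : CVal R) (r s : ℝ) : Gr w r →ₗ[ℂ] Gr w s →ₗ[ℂ] Gr w (r + s) :=
  (gt w r).liftQ (mulG w r s) (mulG_ker w r s)

theorem mulGr_mk (w : CVal R) (r s : ℝ) (x : ge w r) (y : ge w s) :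
    mulGr w r s (Submodule.Quotient.mk x) (Submodule.Quotient.mk y) =
      Submodule.Quotient.mk (mulL w r s x y) := rfl

theorem grE_mul (w : CVal R) (E : Derivation ℂ R R) (hE : ∀ f, w.v f ≤ w.v (E f)) (r s : ℝ)
    (x : Gr w r) (y : Gr w s) : grE w E hE (r + s) (mulGr w r s x y) =
      mulGr w r s (grE w E hE r x) y + mulGr w r s x (grE w E hE s y) := by
  obtain ⟨x, rfl⟩ := Submodule.Quotient.mk_surjective _ x
  obtain ⟨y, rfl⟩ := Submodule.Quotient.mk_surjective _ y
  rw [mulGr_mk, grE_mk, grE_mk, grE_mk, mulGr_mk, mulGr_mk, ← Submodule.Quotient.mk_add]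
  congr 1
  refine Subtype.ext ?_
  rw [coe_geE, coe_mulL, Submodule.coe_add, coe_mulL, coe_mulL, coe_geE, coe_geE,
    Derivation.leibniz, smul_eq_mul, smul_eq_mul]
  ring

theorem fin_gr [IsNoetherianRing R]
    (hres : ∀ f : R, ∃ c : ℂ, f - algebraMap ℂ R c ∈ maximalIdeal R) (w : CVal R) (r : ℝ) :
    FiniteDimensional ℂ (Gr w r) := by
  obtain ⟨N, hN⟩ := pow_le_idl w (r + 1)
  have : FiniteDimensional ℂ (R ⧸ maximalIdeal R ^ N) := fin_pow hres N
  -- the image of `ge w r` in the quotient by the power of the maximal ideal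
  let q : ge w r →ₗ[ℂ] (R ⧸ maximalIdeal R ^ N) :=
    (Ideal.Quotient.mkₐ ℂ (maximalIdeal R ^ N)).toLinearMap ∘ₗ (ge w r).subtype
  have hker : LinearMap.ker q ≤ gt w r := by
    intro x hx
    rw [LinearMap.mem_ker] at hx
    have h1 : (x : R) ∈ maximalIdeal R ^ N := Ideal.Quotient.eq_zero_iff_mem.1 hx
    have h2 : ((r + 1 : ℝ) : WithTop ℝ) ≤ w.v (x : R) := hN h1
    refine lt_of_lt_of_le ?_ h2
    rw [WithTop.coe_lt_coe]
    linarith
  have h3 : FiniteDimensional ℂ (ge w r ⧸ LinearMap.ker q) :=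
    Module.Finite.equiv (LinearMap.quotKerEquivRange q).symm
  exact Module.Finite.of_surjective (Submodule.factor hker) (Submodule.factor_surjective hker)

/-- If every diagonalizable derivation of degree `0` of the graded ring commuting with `L` is a
multiple of the Reeb field, then the derivation induced by `E` has on the part of degree `r` only the
eigenvalue `c r`. -/
theorem single_of_rankOne [IsNoetherianRing R]
    (hres : ∀ f : R, ∃ c : ℂ, f - algebraMap ℂ R c ∈ maximalIdeal R) (w : CVal R)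
    (L : Set (R ≃ₐ[ℂ] R)) (hrk : RankOne w L) (E : Derivation ℂ R R)
    (hE : ∀ f, w.v f ≤ w.v (E f)) (hinv : ∀ σ ∈ L, ∀ f, w.v (σ f) = w.v f)
    (hLE : ∀ σ ∈ L, ∀ f, E (σ f) = σ (E f)) :
    ∃ c : ℂ, SingleEig w E c := by
  have hfin : ∀ r, FiniteDimensional ℂ (Gr w r) := fin_gr hres w
  choose s hs hsm using fun r => exists_ss (grE w E hE r)
  have hleib : ∀ (r t : ℝ) (x : Gr w r) (y : Gr w t),
      s (r + t) (mulGr w r t x y) = mulGr w r t (s r x) y + mulGr w r t x (s t y) := by
    intro r t x y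
    have hx : x ∈ ⨆ μ : ℂ, Module.End.maxGenEigenspace (grE w E hE r) μ := by
      rw [Module.End.iSup_maxGenEigenspace_eq_top]
      trivial
    have hy : y ∈ ⨆ μ : ℂ, Module.End.maxGenEigenspace (grE w E hE t) μ := by
      rw [Module.End.iSup_maxGenEigenspace_eq_top]
      trivial
    induction hx using Submodule.iSup_induction' with
    | mem μ x hx =>
      induction hy using Submodule.iSup_induction' with
      | mem ν y hy =>
        rw [hsm _ _ _ (gen_mul (mulGr w r t) _ _ _ (grE_mul w E hE r t) hx hy), hsm _ _ _ hx,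
          hsm _ _ _ hy, map_smul, LinearMap.smul_apply, map_smul, add_smul]
      | zero => simp only [map_zero, add_zero]
      | add y y' _ _ h1 h2 =>
        simp only [map_add] at h1 h2 ⊢
        rw [h1, h2]
        abel
    | zero => simp only [map_zero, LinearMap.zero_apply, add_zero]
    | add x x' _ _ h1 h2 =>
      simp only [map_add, LinearMap.add_apply] at h1 h2 ⊢
      rw [h1, h2]
      abel
  have hleib' : ∀ (r t : ℝ) (x x' : ge w r) (y y' : ge w t) (z z' : ge w (r + t)),
      Maps w r (s r) x x' → Maps w t (s t) y y' → (z : R) = x * y → (z' : R) = x' * y + x * y' →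
        Maps w (r + t) (s (r + t)) z z' := by
    intro r t x x' y y' z z' hx hy hz hz'
    have h1 : z = mulL w r t x y := Subtype.ext hz
    have h2 : z' = mulL w r t x' y + mulL w r t x y' := Subtype.ext hz'
    have h3 := hleib r t (Submodule.Quotient.mk x) (Submodule.Quotient.mk y)
    have hx' : s r (Submodule.Quotient.mk x) = Submodule.Quotient.mk x' := hx
    have hy' : s t (Submodule.Quotient.mk y) = Submodule.Quotient.mk y' := hy
    rw [hx', hy', mulGr_mk, mulGr_mk, mulGr_mk, ← Submodule.Quotient.mk_add, ← h1, ← h2] at h3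
    exact h3
  have hcomm : ∀ σ ∈ L, Comm w ⟨s, hleib'⟩ σ := by
    intro σ hσ r x x' y y' hy hy' hxx'
    let S : ge w r →ₗ[ℂ] ge w r := LinearMap.restrict σ.toLinearMap (fun z hz => by
      show (r : WithTop ℝ) ≤ w.v (σ z)
      rw [hinv σ hσ]
      exact hz)
    let Sg : Module.End ℂ (Gr w r) := (gt w r).mapQ (gt w r) S (fun z hz => by
      show (r : WithTop ℝ) < w.v (σ (z : R))
      rw [hinv σ hσ]
      exact hz)
    have hSg : ∀ z : ge w r, Sg (Submodule.Quotient.mk z) = Submodule.Quotient.mk (S z) :=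
      fun z => rfl
    have hyS : y = S x := Subtype.ext hy
    have hyS' : y' = S x' := Subtype.ext hy'
    have hcE : ∀ z : Gr w r, Sg (grE w E hE r z) = grE w E hE r (Sg z) := by
      intro z
      obtain ⟨z, rfl⟩ := Submodule.Quotient.mk_surjective _ z
      rw [grE_mk, hSg, hSg, grE_mk]
      congr 1
      refine Subtype.ext ?_
      exact (hLE σ hσ z).symm
    have hcs : ∀ z : Gr w r, Sg (s r z) = s r (Sg z) := by
      intro z
      have hz : z ∈ ⨆ μ : ℂ, Module.End.maxGenEigenspace (grE w E hE r) μ := by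
        rw [Module.End.iSup_maxGenEigenspace_eq_top]
        trivial
      induction hz using Submodule.iSup_induction' with
      | mem μ z hz =>
        have h1 : Sg z ∈ Module.End.maxGenEigenspace (grE w E hE r) μ := by
          refine Module.End.mapsTo_maxGenEigenspace_of_comm (f := grE w E hE r) (g := Sg) ?_ μ hz
          exact LinearMap.ext fun z => (hcE z).symm
        rw [hsm _ _ _ hz, hsm _ _ _ h1, map_smul]
      | zero => simp only [map_zero]
      | add z z' _ _ h1 h2 =>
        simp only [map_add] at h1 h2 ⊢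
        rw [h1, h2]
    show s r (Submodule.Quotient.mk y) = Submodule.Quotient.mk y'
    have hxx'' : s r (Submodule.Quotient.mk x) = Submodule.Quotient.mk x' := hxx'
    rw [hyS, hyS', ← hSg, ← hSg, ← hxx'', hcs]
  obtain ⟨c, hc⟩ := hrk ⟨s, hleib'⟩ hs hcomm
  refine ⟨c, fun f r μ hf hlt => ?_⟩
  have hfr : f ∈ ge w r := hf.ge
  set x : ge w r := ⟨f, hfr⟩ with hx
  have hx0 : (Submodule.Quotient.mk x : Gr w r) ≠ 0 := by
    intro h0
    rw [Submodule.Quotient.mk_eq_zero] at h0
    have h1 : (r : WithTop ℝ) < w.v f := h0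
    rw [hf] at h1
    exact lt_irrefl _ h1
  have hmem : (Submodule.Quotient.mk x : Gr w r) ∈
      Module.End.maxGenEigenspace (grE w E hE r) μ := by
    rw [mem_gen]
    refine ⟨1, ?_⟩
    rw [pow_one, LinearMap.sub_apply, LinearMap.smul_apply, Module.End.one_apply, grE_mk,
      ← Submodule.Quotient.mk_smul, ← Submodule.Quotient.mk_sub, Submodule.Quotient.mk_eq_zero]
    show (r : WithTop ℝ) < w.v (E f - μ • f)
    rw [← hf]
    exact hlt
  have h1 := hsm r μ _ hmem
  have h2 : s r (Submodule.Quotient.mk x) = (c * (r : ℂ)) • (Submodule.Quotient.mk x : Gr w r) :=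
    (hc r x).trans (Submodule.Quotient.mk_smul _ _ _)
  rw [h2] at h1
  exact (smul_left_injective ℂ hx0 h1).symm

end

end Pool.Agent.Helper20.LT
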