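import Pool.Agent.Helper20.LT.Dc
import Pool.Agent.Helper11.SY.Ma

/-!
# The criterion
-/

set_option autoImplicit false

namespace Pool.Agent.Helper20.LT

open IsLocalRing Pool.Agent.Helper11.SY Module

noncomputable section

variable {R : Type} [CommRing R] [Algebra ℂ R]

/-- `E` is a Liouville field: `L_E ω = ω` for the symplectic form `ω`, that is `L_E π = - π` for the
Poisson bracket. -/
def Liouville {n : ℕ} (S : Symp R n) (E : Derivation ℂ R R) : Prop :=
  ∀ f g, E (S.br f g) = S.br (E f) g + S.br f (E g) - S.br f g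

theorem br_TE {n : ℕ} {S : Symp R n} {E : Derivation ℂ R R} (hL : Liouville S E) (a b : ℂ)
    (x y : R) : TE E (a + b + (-1)) (S.br x y) = S.br (TE E a x) y + S.br x (TE E b y) := by
  rw [TE_apply, TE_apply, TE_apply, hL, map_sub, map_smul, map_sub, Derivation.map_smul]
  simp only [Derivation.sub_apply, Derivation.smul_apply]
  module

variable [IsLocalRing R]

theorem br_pow {n : ℕ} (S : Symp R n) (k : ℕ) {x : R} (hx : x ∈ maximalIdeal R ^ (k + 1)) (y : R) :
    S.br x y ∈ maximalIdeal R ^ k := by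
  rw [br_skew]
  exact (maximalIdeal R ^ k).neg_mem (der_pow _ _ k hx)

theorem gen_br {n : ℕ} {S : Symp R n} {E : Derivation ℂ R R} (hL : Liouville S E)
    (hEm : ∀ f ∈ maximalIdeal R, E f ∈ maximalIdeal R) {k : ℕ} {a b : ℂ} {x y : R}
    (hx : GenI E (maximalIdeal R ^ (k + 1)) a x) (hy : GenI E (maximalIdeal R ^ (k + 1)) b y) :
    GenI E (maximalIdeal R ^ k) (a + b + (-1)) (S.br x y) :=
  genI_bil (pow_stable E hEm k) (fun x y => S.br x y) (-1) (br_TE hL)
    (fun _ hx y => br_pow S k hx y) (fun _ hy x => der_pow _ (S.br x) k hy) hx hy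

theorem th_pow {n : ℕ} (S : Symp R n) (k : ℕ) (f : Fin (2 * n) → R) (i : Fin (2 * n))
    (hf : f i ∈ maximalIdeal R ^ (k + 1)) : S.th f ∈ maximalIdeal R ^ k := by
  let D : Derivation ℂ R R := Derivation.mk' (S.th.toMultilinearMap.toLinearMap f i) (by
    intro a b
    have h1 := S.der f i a b
    simp only [MultilinearMap.toLinearMap_apply, AlternatingMap.coe_multilinearMap, smul_eq_mul]
    exact h1)
  have h1 : S.th f = D (f i) := by
    show S.th f = S.th (Function.update f i (f i))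
    rw [Function.update_eq_self]
  rw [h1]
  exact der_pow _ D k hf

/-- a tuple of generalized eigenvectors on which the Pfaffian does not vanish -/
theorem tuple [IsNoetherianRing R]
    (hres : ∀ f : R, ∃ c : ℂ, f - algebraMap ℂ R c ∈ maximalIdeal R) {n : ℕ} {S : Symp R n}
    {w : CVal R} {E : Derivation ℂ R R} (hE : ∀ f, w.v f ≤ w.v (E f))
    (hEm : ∀ f ∈ maximalIdeal R, E f ∈ maximalIdeal R) {k K : ℕ} (hK : k + 1 ≤ K)
    (g : Fin (2 * n) → R) (hg : S.th g ∉ maximalIdeal R ^ k) :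
    ∃ (f : Fin (2 * n) → R) (μ : Fin (2 * n) → ℂ),
      (∀ i, GenI E (maximalIdeal R ^ K) (μ i) (f i)) ∧ S.th f ∉ maximalIdeal R ^ k := by
  classical
  have key : ∀ s : Finset (Fin (2 * n)), ∃ f : Fin (2 * n) → R,
      (∀ i ∈ s, ∃ μ, GenI E (maximalIdeal R ^ K) μ (f i)) ∧ S.th f ∉ maximalIdeal R ^ k := by
    intro s
    induction s using Finset.induction_on with
    | empty => exact ⟨g, fun i hi => absurd hi (Finset.notMem_empty i), hg⟩
    | insert a s ha ih =>
      obtain ⟨f, hf, hfk⟩ := ih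
      have h0 : ((0 : ℝ) : WithTop ℝ) ≤ w.v (f a) := w.nonneg _
      obtain ⟨m, F, μ, -, hFg, hFs⟩ := decomp hres hE hEm K 0 h0
      have h1 : S.th f = ∑ j, S.th (Function.update f a (F j)) +
          S.th (Function.update f a (f a - ∑ j, F j)) := by
        have h2 : ∀ x : R, S.th (Function.update f a x) =
            S.th.toMultilinearMap.toLinearMap f a x := fun x => rfl
        rw [Finset.sum_congr rfl fun j _ => h2 (F j), h2, ← map_sum, ← map_add,
          add_sub_cancel, ← h2, Function.update_eq_self]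
      have h3 : S.th (Function.update f a (f a - ∑ j, F j)) ∈ maximalIdeal R ^ k := by
        refine th_pow S k _ a ?_
        rw [Function.update_self]
        exact Ideal.pow_le_pow_right hK hFs
      obtain ⟨j, hj⟩ : ∃ j, S.th (Function.update f a (F j)) ∉ maximalIdeal R ^ k := by
        by_contra hcon
        push Not at hcon
        apply hfk
        rw [h1]
        exact Ideal.add_mem _ (Ideal.sum_mem _ fun j _ => hcon j) h3
      refine ⟨Function.update f a (F j), fun i hi => ?_, hj⟩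
      by_cases hia : i = a
      · rw [hia, Function.update_self]
        exact ⟨μ j, hFg j⟩
      · rw [Function.update_of_ne hia]
        exact hf i ((Finset.mem_insert.1 hi).resolve_left hia)
  obtain ⟨f, hf, hfk⟩ := key Finset.univ
  choose μ hμ using fun i => hf i (Finset.mem_univ i)
  exact ⟨f, μ, hμ, hfk⟩

theorem exists_notMem [IsNoetherianRing R] [IsAdicComplete (maximalIdeal R) R] {x : R}
    (hx : x ≠ 0) : ∃ k : ℕ, x ∉ maximalIdeal R ^ k := by
  by_contra hcon
  push Not at hcon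
  apply hx
  refine adic_ext (maximalIdeal R) fun k => ?_
  rw [map_zero, Ideal.Quotient.eq_zero_iff_mem]
  exact hcon k

/-- the constant `c` -/
theorem const_eq [IsDomain R] [IsNoetherianRing R] [IsAdicComplete (maximalIdeal R) R]
    (hres : ∀ f : R, ∃ c : ℂ, f - algebraMap ℂ R c ∈ maximalIdeal R) {n : ℕ} {S : Symp R n}
    {w : CVal R} {A : ℝ} (hd : LogDisc S w A) (hm : ∃ f ∈ maximalIdeal R, f ≠ 0)
    {E : Derivation ℂ R R} (hE : ∀ f, w.v f ≤ w.v (E f))
    (hEm : ∀ f ∈ maximalIdeal R, E f ∈ maximalIdeal R) (hL : Liouville S E) {c : ℂ}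
    (hc : SingleEig w E c) : ∃ δ : ℝ, δ ≤ A ∧ c * δ = n := by
  obtain ⟨f0, hf0, hf00⟩ := hm
  obtain ⟨g, -, -, hg0, -⟩ := hd.eq f0 hf0 hf00
  obtain ⟨k, hk⟩ := exists_notMem hg0
  obtain ⟨ρ1, hρ1⟩ := chevalley hres w k
  obtain ⟨ρ2, hρ2⟩ := chevalley hres w (k + 1)
  obtain ⟨k2, hk2⟩ := pow_le_idl w (2 * ρ1)
  obtain ⟨K2, hK2⟩ := pow_le_idl w ρ2
  set K := max (max (k + 1) (k2 + 1)) K2 with hK
  obtain ⟨f, μ, hf, hfk⟩ := tuple (w := w) hres hE hEm (K := K)
    ((le_max_left _ _).trans (le_max_left _ _)) g hk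
  have hth0 : S.th f ≠ 0 := fun h0 => hfk (by rw [h0]; exact Ideal.zero_mem _)
  obtain ⟨t, ht⟩ := real_val w hth0
  have htρ : t < ρ1 := by
    by_contra hcon
    exact hfk (hρ1 _ (by rw [ht, WithTop.coe_le_coe]; exact not_lt.1 hcon))
  have hfi : ∀ i, f i ∉ maximalIdeal R ^ (k + 1) := fun i hi => hfk (th_pow S k f i hi)
  have hfi0 : ∀ i, f i ≠ 0 := fun i h0 => hfi i (by rw [h0]; exact Ideal.zero_mem _)
  choose r hr using fun i => real_val w (hfi0 i)
  have hrρ : ∀ i, r i < ρ2 := by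
    intro i
    by_contra hcon
    exact hfi i (hρ2 _ (by rw [hr, WithTop.coe_le_coe]; exact not_lt.1 hcon))
  have hμ : ∀ i, μ i = c * r i := fun i =>
    (hf i).lead hE hc ((Ideal.pow_le_pow_right (le_max_right _ _)).trans hK2) (hr i) (hrρ i)
  -- the determinant
  have hdet : GenI E (maximalIdeal R ^ k2) (2 * ∑ i, μ i + (2 * n : ℕ) * (-1))
      (Matrix.of fun i j => S.br (f i) (f j)).det := by
    refine GenI.det (pow_stable E hEm k2) _ μ (-1) fun i j => ?_
    have h1 : ∀ i, GenI E (maximalIdeal R ^ (k2 + 1)) (μ i) (f i) := fun i =>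
      (hf i).mono (Ideal.pow_le_pow_right ((le_max_right _ _).trans (le_max_left _ _)))
    exact gen_br hL hEm (h1 i) (h1 j)
  have hdv : w.v (Matrix.of fun i j => S.br (f i) (f j)).det = ((2 * t : ℝ) : WithTop ℝ) := by
    rw [← S.sq, w.v.map_pow, ht, two_nsmul, ← WithTop.coe_add]
    congr 1
    ring
  have h2 := hdet.lead hE hc hk2 hdv (by linarith)
  refine ⟨∑ i, r i - t, ?_, ?_⟩
  · have h3 := hd.le f
    rw [ht, Finset.sum_congr rfl fun i _ => hr i, ← WithTop.coe_sum, ← WithTop.coe_add,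
      WithTop.coe_le_coe] at h3
    linarith
  · rw [Finset.sum_congr rfl fun i _ => hμ i, ← Finset.mul_sum] at h2
    push_cast at h2 ⊢
    linear_combination (-1 / 2 : ℂ) * h2 * (-1)

end

end Pool.Agent.Helper20.LT
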